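import Pool.Agent.Helper749.ConeInt

set_option autoImplicit false

namespace Pool.Agent.Helper749.ConeFinal

open Set Filter Topology MeasureTheory
open Pool.Agent.Helper749.PReg Pool.Agent.Helper749.ConeGeo Pool.Agent.Helper749.ConeSol
open Pool.Agent.Helper749.ConeInt
open scoped ContDiff ENNReal

/-- `c |s|^k` with `2 < k ≤ 3` is not of class `C³`. -/
lemma not_contDiff {c k : ℝ} (hc : 0 < c) (hk2 : 2 < k) (hk3 : k ≤ 3) :
    ¬ ContDiff ℝ 3 (fun s : ℝ => c * |s| ^ k) := by
  intro h
  set g : ℝ → ℝ := fun s => c * |s| ^ k with hg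
  have h2 : ContDiff ℝ 2 (deriv g) := by
    have : ContDiff ℝ (2 + 1) g := by
      norm_num
      exact h
    exact (contDiff_succ_iff_deriv.mp this).2.2
  have h3 : ContDiff ℝ 1 (deriv (deriv g)) := by
    have : ContDiff ℝ (1 + 1) (deriv g) := by
      norm_num
      exact h2
    exact (contDiff_succ_iff_deriv.mp this).2.2
  have heven : (fun x => g (-x)) = g := by
    ext x
    simp [hg]
  have hodd : ∀ x, deriv g x = -deriv g (-x) := by
    intro x
    conv_lhs => rw [← heven]
    exact deriv_comp_neg g x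
  have heven2 : ∀ x, deriv (deriv g) x = deriv (deriv g) (-x) := by
    intro x
    have e : deriv g = fun x => -deriv g (-x) := funext hodd
    conv_lhs => rw [e]
    rw [deriv.fun_neg, deriv_comp_neg, neg_neg]
  have hpos1 : ∀ x, 0 < x → deriv g x = c * (k * x ^ (k - 1)) := by
    intro x hx
    have e : g =ᶠ[𝓝 x] fun y => c * y ^ k := by
      filter_upwards [Ioi_mem_nhds hx] with y hy
      have hy' : 0 < y := hy
      simp only [hg]
      rw [abs_of_pos hy']
    rw [e.deriv_eq]
    have := ((Real.hasDerivAt_rpow_const (x := x) (p := k) (Or.inl hx.ne')).const_mul c).deriv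
    simpa using this
  have hpos2 : ∀ x, 0 < x → deriv (deriv g) x = c * k * (k - 1) * x ^ (k - 2) := by
    intro x hx
    have e : deriv g =ᶠ[𝓝 x] fun y => c * (k * y ^ (k - 1)) := by
      filter_upwards [Ioi_mem_nhds hx] with y hy
      exact hpos1 y hy
    rw [e.deriv_eq]
    have := (((Real.hasDerivAt_rpow_const (x := x) (p := k - 1) (Or.inl hx.ne')).const_mul
      k).const_mul c).deriv
    rw [this]
    rw [show k - 1 - 1 = k - 2 by ring]
    ring
  have hcont : Continuous (deriv (deriv g)) := h3.continuous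
  have hz : deriv (deriv g) 0 = 0 := by
    have t1 : Tendsto (deriv (deriv g)) (𝓝[>] 0) (𝓝 (deriv (deriv g) 0)) :=
      (hcont.tendsto 0).mono_left nhdsWithin_le_nhds
    have t2 : Tendsto (fun x : ℝ => c * k * (k - 1) * x ^ (k - 2)) (𝓝[>] 0)
        (𝓝 (c * k * (k - 1) * 0 ^ (k - 2))) := by
      have : ContinuousAt (fun x : ℝ => c * k * (k - 1) * x ^ (k - 2)) 0 :=
        continuousAt_const.mul (Real.continuousAt_rpow_const _ _ (Or.inr (by linarith)))
      exact this.tendsto.mono_left nhdsWithin_le_nhds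
    rw [Real.zero_rpow (by linarith), mul_zero] at t2
    refine tendsto_nhds_unique t1 (t2.congr' ?_)
    filter_upwards [self_mem_nhdsWithin] with x hx
    exact (hpos2 x hx).symm
  have hd : HasDerivAt (deriv (deriv g)) (deriv (deriv (deriv g)) 0) 0 :=
    (h3.differentiable (by simp) 0).hasDerivAt
  have hd0 : deriv (deriv (deriv g)) 0 = 0 := by
    have e : deriv (deriv g) = fun x => deriv (deriv g) (-x) := funext heven2
    have e2 : deriv (deriv (deriv g)) 0 = -deriv (deriv (deriv g)) (-0) := by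
      conv_lhs => rw [e]
      exact deriv_comp_neg (deriv (deriv g)) 0
    rw [neg_zero] at e2
    linarith
  rw [hd0] at hd
  have hs := (hasDerivAt_iff_tendsto_slope.mp hd).mono_left
        (nhdsWithin_mono 0 (fun x (hx : x ∈ Ioi (0:ℝ)) => ne_of_gt hx))
  have hckpos : 0 < c * k * (k - 1) := by
    have : 0 < k - 1 := by linarith
    positivity
  have : c * k * (k - 1) ≤ 0 := by
    apply ge_of_tendsto hs
    filter_upwards [Ioo_mem_nhdsGT (show (0:ℝ) < 1 by norm_num)] with x hx
    rw [slope_def_field, hz, sub_zero, sub_zero, hpos2 x hx.1, le_div_iff₀ hx.1]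
    apply mul_le_mul_of_nonneg_left _ hckpos.le
    conv_lhs => rw [← Real.rpow_one x]
    exact Real.rpow_le_rpow_of_exponent_ge hx.1 hx.2.le (by linarith)
  linarith

variable {μ : ℝ} (Pr : Prof μ)

/-- The solution is not better than `C^{2,1}`. -/
theorem not_reg {s : ℝ} (hs : 3 < s) : ¬ RegLoc s univ (uu Pr) := by
  rintro ⟨m, α, hα0, hα1, hsm, v, hv1, hv2, -⟩
  have hm : 3 ≤ m := by
    have : (2 : ℝ) < m := by linarith
    have : 2 < m := by exact_mod_cast this
    omega
  have hv3 : ContDiff ℝ 3 v := by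
    rw [contDiffOn_univ] at hv2
    exact hv2.of_le (by exact_mod_cast hm)
  have heq : uu Pr = v := by
    rw [Measure.restrict_univ] at hv1
    exact (Continuous.ae_eq_iff_eq volume (continuous_uu Pr) hv3.continuous).mp hv1
  have h4 : ContDiff ℝ 3 (fun s : ℝ => uu Pr (EuclideanSpace.single 0 s)) := by
    have e : (fun s : ℝ => uu Pr (EuclideanSpace.single 0 s))
        = fun s : ℝ => v (s • (EuclideanSpace.single 0 1 : E)) := by
      ext s
      rw [heq]
      congr 1
      ext i
      simp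
    rw [e]
    exact hv3.comp (contDiff_id.smul contDiff_const)
  have e : (fun s : ℝ => uu Pr (EuclideanSpace.single 0 s)) = fun s : ℝ => Pr.Vp * |s| ^ Pr.k :=
    funext fun s => uu_axis Pr s
  rw [e] at h4
  exact not_contDiff Pr.hVp Pr.hk2 Pr.hk3 h4

theorem gamma_le {p : ℝ} (h1 : 1 < p) (h2 : p < 2) : gammaReg 8 p ≤ 3 := by
  obtain ⟨Pr⟩ := exists_prof (μ := p - 1) (by linarith) (by linarith)
  unfold gammaReg
  refine iSup₂_le ?_
  rintro s ⟨hs0, hs⟩
  by_contra hcon
  have hs3 : 3 < s := by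
    by_contra h3
    apply hcon
    push Not at h3
    calc ENNReal.ofReal s ≤ ENNReal.ofReal 3 := ENNReal.ofReal_le_ofReal h3
      _ = 3 := by norm_num
  have hu := isPHarmonic_uu Pr
  rw [show 1 + (p - 1) = p by ring] at hu
  exact not_reg Pr hs3 (hs univ (uu Pr) isOpen_univ hu)

theorem not_tendsto :
    ¬ ∀ n : ℕ, 3 ≤ n → Tendsto (fun p => gammaReg n p) (𝓝[>] 1) (𝓝 ⊤) := by
  intro h
  have h8 := h 8 (by norm_num)
  have h3 : ∀ᶠ p in 𝓝[>] (1:ℝ), 3 < gammaReg 8 p :=
    h8.eventually (lt_mem_nhds (by norm_num))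
  have h4 : ∀ᶠ p in 𝓝[>] (1:ℝ), p ∈ Ioo (1:ℝ) 2 := Ioo_mem_nhdsGT (by norm_num)
  obtain ⟨p, hp1, hp2⟩ := (h3.and h4).exists
  exact absurd (gamma_le hp2.1 hp2.2) (not_le.mpr hp1)

end Pool.Agent.Helper749.ConeFinal
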