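import Mathlib

set_option autoImplicit false

namespace Pool.Agent.Helper749.PReg

open MeasureTheory Set Filter Topology
open scoped ENNReal ContDiff

/-- The partial derivative `∂_i φ`. -/
noncomputable def pd {n : ℕ} (i : Fin n) (φ : EuclideanSpace ℝ (Fin n) → ℝ)
    (x : EuclideanSpace ℝ (Fin n)) : ℝ :=
  fderiv ℝ φ x (EuclideanSpace.single i 1)

/-- `φ ∈ C_c^∞(Ω)`. -/
def IsTest {n : ℕ} (Ω : Set (EuclideanSpace ℝ (Fin n))) (φ : EuclideanSpace ℝ (Fin n) → ℝ) :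
    Prop :=
  ContDiff ℝ ∞ φ ∧ HasCompactSupport φ ∧ tsupport φ ⊆ Ω

/-- `f ∈ L^p_loc(Ω)`. -/
def MemLpLoc {n : ℕ} (p : ℝ) (Ω : Set (EuclideanSpace ℝ (Fin n)))
    (f : EuclideanSpace ℝ (Fin n) → ℝ) : Prop :=
  ∀ K : Set (EuclideanSpace ℝ (Fin n)), IsCompact K → K ⊆ Ω →
    MemLp f (ENNReal.ofReal p) (volume.restrict K)

/-- `G` is the weak gradient of `u` in `Ω`. -/
def IsWeakGrad {n : ℕ} (Ω : Set (EuclideanSpace ℝ (Fin n))) (u : EuclideanSpace ℝ (Fin n) → ℝ)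
    (G : EuclideanSpace ℝ (Fin n) → EuclideanSpace ℝ (Fin n)) : Prop :=
  ∀ φ : EuclideanSpace ℝ (Fin n) → ℝ, IsTest Ω φ → ∀ i : Fin n,
    ∫ x in Ω, u x * pd i φ x = -∫ x in Ω, G x i * φ x

/-- `u` lies in `W^{1,p}_loc(Ω)` and is a weak solution of `div(|∇u|^{p-2} ∇u) = 0` in `Ω`. -/
def IsPHarmonic {n : ℕ} (p : ℝ) (Ω : Set (EuclideanSpace ℝ (Fin n)))
    (u : EuclideanSpace ℝ (Fin n) → ℝ) : Prop :=
  MemLpLoc p Ω u ∧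
    ∃ G : EuclideanSpace ℝ (Fin n) → EuclideanSpace ℝ (Fin n),
      (∀ i, MemLpLoc p Ω fun x => G x i) ∧ IsWeakGrad Ω u G ∧
        ∀ φ : EuclideanSpace ℝ (Fin n) → ℝ, IsTest Ω φ →
          ∫ x in Ω, ‖G x‖ ^ (p - 2) * ∑ i, G x i * pd i φ x = 0

/-- `u ∈ C^{k,α}_loc(Ω)`, that is, `u` agrees almost everywhere on `Ω` with a function `v` of
class `C^k` on `Ω` whose `k`-th derivative is `α`-Hölder continuous on compact subsets of `Ω`. -/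
def HolderLoc {n : ℕ} (k : ℕ) (α : ℝ) (Ω : Set (EuclideanSpace ℝ (Fin n)))
    (u : EuclideanSpace ℝ (Fin n) → ℝ) : Prop :=
  ∃ v : EuclideanSpace ℝ (Fin n) → ℝ, (∀ᵐ x ∂(volume.restrict Ω), u x = v x) ∧
    ContDiffOn ℝ k v Ω ∧
    ∀ K : Set (EuclideanSpace ℝ (Fin n)), IsCompact K → K ⊆ Ω → ∃ C : ℝ, ∀ x ∈ K, ∀ y ∈ K,
      ‖iteratedFDeriv ℝ k v x - iteratedFDeriv ℝ k v y‖ ≤ C * ‖x - y‖ ^ α

/-- `u ∈ C^s_loc(Ω)`, where `s = k + α` with `k ≥ 0` an integer and `0 < α ≤ 1`. -/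
def RegLoc {n : ℕ} (s : ℝ) (Ω : Set (EuclideanSpace ℝ (Fin n)))
    (u : EuclideanSpace ℝ (Fin n) → ℝ) : Prop :=
  ∃ (k : ℕ) (α : ℝ), 0 < α ∧ α ≤ 1 ∧ s = k + α ∧ HolderLoc k α Ω u

/-- The degree of regularity `γ(n,p)`, as an element of `[0,∞]`. -/
noncomputable def gammaReg (n : ℕ) (p : ℝ) : ℝ≥0∞ :=
  ⨆ (s : ℝ) (_ : 0 < s ∧ ∀ (Ω : Set (EuclideanSpace ℝ (Fin n)))
    (u : EuclideanSpace ℝ (Fin n) → ℝ), IsOpen Ω → IsPHarmonic p Ω u → RegLoc s Ω u),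
    ENNReal.ofReal s

end Pool.Agent.Helper749.PReg
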