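import Pool.Agent.Helper749.ConeFun
import Pool.Agent.Helper749.PReg

set_option autoImplicit false

namespace Pool.Agent.Helper749.ConeGeo

open Set Filter Topology MeasureTheory
open Pool.Agent.Helper749.ConeFun Pool.Agent.Helper749.PReg

/-- Eight-dimensional space. -/
abbrev E := EuclideanSpace ℝ (Fin 8)

/-- Indicator of the first block. -/
def cX (i : Fin 8) : ℝ := if i.val < 4 then 1 else 0

/-- Indicator of the second block. -/
def cY (i : Fin 8) : ℝ := if i.val < 4 then 0 else 1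

/-- Quadratic form. -/
def qf (c : Fin 8 → ℝ) (z : E) : ℝ := ∑ i, c i * z i ^ 2

/-- Its derivative. -/
noncomputable def dqf (c : Fin 8 → ℝ) (z : E) : E →L[ℝ] ℝ :=
  ∑ i, (2 * c i * z i) • (EuclideanSpace.proj i : E →L[ℝ] ℝ)

lemma hasFDerivAt_coord (i : Fin 8) (z : E) :
    HasFDerivAt (fun z : E => z i) (EuclideanSpace.proj i : E →L[ℝ] ℝ) z :=
  (EuclideanSpace.proj i : E →L[ℝ] ℝ).hasFDerivAt

lemma hasFDerivAt_qf (c : Fin 8 → ℝ) (z : E) : HasFDerivAt (qf c) (dqf c z) z := by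
  unfold qf dqf
  have h : HasFDerivAt (fun z : E => ∑ i, c i * z i ^ 2)
      (∑ i, c i • ((2 • z i ^ (2 - 1)) • (EuclideanSpace.proj i : E →L[ℝ] ℝ))) z := by
    apply HasFDerivAt.fun_sum
    intro i _
    exact ((hasFDerivAt_coord i z).pow 2).const_mul (c i)
  refine h.congr_fderiv ?_
  apply Finset.sum_congr rfl
  intro i _
  rw [smul_smul]
  congr 1
  simp only [nsmul_eq_mul]
  push_cast
  ring

lemma dqf_single (c : Fin 8 → ℝ) (z : E) (j : Fin 8) :
    dqf c z (EuclideanSpace.single j 1) = 2 * c j * z j := by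
  unfold dqf
  simp

/-- First block. -/
noncomputable def XX (z : E) : ℝ := qf cX z

/-- Second block. -/
noncomputable def YY (z : E) : ℝ := qf cY z

lemma XX_eq (z : E) : XX z = z 0 ^ 2 + z 1 ^ 2 + z 2 ^ 2 + z 3 ^ 2 := by
  simp [XX, qf, cX, Fin.sum_univ_eight]

lemma YY_eq (z : E) : YY z = z 4 ^ 2 + z 5 ^ 2 + z 6 ^ 2 + z 7 ^ 2 := by
  simp [YY, qf, cY, Fin.sum_univ_eight]

lemma cXY (i : Fin 8) : cX i + cY i = 1 := by
  unfold cX cY
  split_ifs <;> norm_num

lemma XX_nonneg (z : E) : 0 ≤ XX z := by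
  rw [XX_eq]
  positivity

lemma YY_nonneg (z : E) : 0 ≤ YY z := by
  rw [YY_eq]
  positivity

lemma norm_sq (z : E) : ‖z‖ ^ 2 = XX z + YY z := by
  rw [EuclideanSpace.norm_sq_eq, XX_eq, YY_eq]
  simp [Fin.sum_univ_eight]
  ring

lemma continuous_XX : Continuous XX :=
  continuous_iff_continuousAt.mpr fun z => (hasFDerivAt_qf cX z).continuousAt

lemma continuous_YY : Continuous YY :=
  continuous_iff_continuousAt.mpr fun z => (hasFDerivAt_qf cY z).continuousAt

/-- The open set where both blocks are nonzero. -/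
def UU : Set E := {z | 0 < XX z ∧ 0 < YY z}

lemma isOpen_UU : IsOpen UU :=
  (isOpen_lt continuous_const continuous_XX).inter (isOpen_lt continuous_const continuous_YY)

lemma ae_UU : ∀ᵐ z : E, z ∈ UU := by
  have key : ∀ i : Fin 8, volume {z : E | z i = 0} = 0 := by
    intro i
    have : {z : E | z i = 0}
        = ((LinearMap.ker (EuclideanSpace.proj i : E →L[ℝ] ℝ).toLinearMap : Submodule ℝ E) : Set E) := by
      ext z
      simp
    rw [this]
    apply Measure.addHaar_submodule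
    intro h
    have h2 : (EuclideanSpace.single i (1:ℝ) : E) ∈ LinearMap.ker (EuclideanSpace.proj i : E →L[ℝ] ℝ).toLinearMap := by
      rw [h]
      trivial
    simp at h2
  have h0 : ∀ᵐ z : E, z 0 ≠ 0 := by
    rw [ae_iff]
    simpa using key 0
  have h4 : ∀ᵐ z : E, z 4 ≠ 0 := by
    rw [ae_iff]
    simpa using key 4
  filter_upwards [h0, h4] with z hz0 hz4
  constructor
  · rw [XX_eq]
    positivity
  · rw [YY_eq]
    positivity

/-- The angular variable. -/
noncomputable def tt (z : E) : ℝ := (Real.log (XX z) - Real.log (YY z)) / 2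

/-- Its derivative. -/
noncomputable def dtt (z : E) : E →L[ℝ] ℝ :=
  (1 / 2 : ℝ) • ((XX z)⁻¹ • dqf cX z - (YY z)⁻¹ • dqf cY z)

lemma hasFDerivAt_tt {z : E} (hz : z ∈ UU) : HasFDerivAt tt (dtt z) z := by
  have h1 := (hasFDerivAt_qf cX z).log (x := z) hz.1.ne'
  have h2 := (hasFDerivAt_qf cY z).log (x := z) hz.2.ne'
  have h3 := (h1.sub h2).const_mul (1 / 2 : ℝ)
  refine HasFDerivAt.congr_of_eventuallyEq h3 ?_
  filter_upwards with w
  unfold tt XX YY
  simp only [Pi.sub_apply]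
  ring

lemma dtt_single (z : E) (j : Fin 8) :
    dtt z (EuclideanSpace.single j 1) = z j * (cX j / XX z - cY j / YY z) := by
  unfold dtt
  simp only [_root_.smul_apply, _root_.sub_apply, dqf_single,
    smul_eq_mul]
  ring

lemma tanh_tt {z : E} (hz : z ∈ UU) : Real.tanh (tt z) = (XX z - YY z) / (XX z + YY z) := by
  have hX := hz.1
  have hY := hz.2
  have h2 : Real.exp (tt z) * Real.exp (tt z) = XX z / YY z := by
    rw [← Real.exp_add]
    have : tt z + tt z = Real.log (XX z) - Real.log (YY z) := by unfold tt; ring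
    rw [this, Real.exp_sub, Real.exp_log hX, Real.exp_log hY]
  have hp := Real.exp_pos (tt z)
  rw [Real.tanh_eq_sinh_div_cosh, Real.sinh_eq, Real.cosh_eq, Real.exp_neg]
  set a := Real.exp (tt z)
  have ha : a * a * YY z = XX z := by
    rw [h2]
    field_simp
  rw [← ha]
  field_simp

lemma cosh_tt {z : E} (hz : z ∈ UU) :
    1 / Real.cosh (tt z) ^ 2 = 4 * XX z * YY z / (XX z + YY z) ^ 2 := by
  have hX := hz.1
  have hY := hz.2
  have h1 := tanh_tt hz
  have h2 : 1 / Real.cosh (tt z) ^ 2 = 1 - Real.tanh (tt z) ^ 2 := by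
    rw [Real.tanh_eq_sinh_div_cosh]
    have hc := Real.cosh_pos (tt z)
    have := Real.cosh_sq (tt z)
    field_simp
    linarith
  rw [h2, h1]
  field_simp
  ring

/-- The radial variable squared. -/
noncomputable def RR (z : E) : ℝ := XX z + YY z

lemma RR_nonneg (z : E) : 0 ≤ RR z := add_nonneg (XX_nonneg z) (YY_nonneg z)

lemma RR_pos {z : E} (hz : z ∈ UU) : 0 < RR z := add_pos hz.1 hz.2

lemma continuous_RR : Continuous RR := continuous_XX.add continuous_YY

lemma hasFDerivAt_RR (z : E) : HasFDerivAt RR (dqf cX z + dqf cY z) z :=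
  (hasFDerivAt_qf cX z).add (hasFDerivAt_qf cY z)

/-- The building block `R^s a(t)`. -/
noncomputable def bb (s : ℝ) (a : ℝ → ℝ) (z : E) : ℝ := RR z ^ s * a (tt z)

/-- The derivative of the building block. -/
noncomputable def dbb (s : ℝ) (a : ℝ → ℝ) (a' : ℝ) (z : E) : E →L[ℝ] ℝ :=
  RR z ^ s • (a' • dtt z) + a (tt z) • ((s * RR z ^ (s - 1)) • (dqf cX z + dqf cY z))

lemma hasFDerivAt_bb {s : ℝ} {a : ℝ → ℝ} {a' : ℝ} {z : E} (hz : z ∈ UU)
    (ha : HasDerivAt a a' (tt z)) : HasFDerivAt (bb s a) (dbb s a a' z) z := by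
  have h1 : HasFDerivAt (fun z => RR z ^ s) ((s * RR z ^ (s - 1)) • (dqf cX z + dqf cY z)) z :=
    (hasFDerivAt_RR z).rpow_const (Or.inl (RR_pos hz).ne')
  have h2 : HasFDerivAt (fun z => a (tt z)) (a' • dtt z) z :=
    ha.comp_hasFDerivAt z (hasFDerivAt_tt hz)
  exact h1.mul h2

lemma dbb_single (s : ℝ) (a : ℝ → ℝ) (a' : ℝ) (z : E) (j : Fin 8) :
    dbb s a a' z (EuclideanSpace.single j 1)
      = z j * (RR z ^ s * a' * (cX j / XX z - cY j / YY z)
        + 2 * s * RR z ^ (s - 1) * a (tt z)) := by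
  unfold dbb
  simp only [_root_.smul_apply, _root_.add_apply, dqf_single,
    dtt_single, smul_eq_mul]
  have := cXY j
  have e : cY j = 1 - cX j := by linarith
  rw [e]
  ring

/-- The coefficient. -/
noncomputable def kap (z : E) (j : Fin 8) : ℝ := 2 * (YY z * cX j - XX z * cY j) / RR z

lemma kap_eq {z : E} (hz : z ∈ UU) (j : Fin 8) :
    kap z j = (cX j - cY j) - Real.tanh (tt z) := by
  have hX := hz.1
  have hY := hz.2
  rw [tanh_tt hz]
  unfold kap RR
  unfold cX cY
  split_ifs <;> field_simp <;> ring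

/-- The gradient of `R^{k/2} V(t)`. -/
lemma grad_u {z : E} (hz : z ∈ UU) {k : ℝ} {V : ℝ → ℝ} {β : ℝ} (j : Fin 8) :
    dbb (k / 2) V (β / (2 * Real.cosh (tt z) ^ 2)) z (EuclideanSpace.single j 1)
      = z j * (RR z ^ (k / 2 - 1) * (k * V (tt z) + kap z j * β)) := by
  have hX := hz.1
  have hY := hz.2
  have hR := RR_pos hz
  rw [dbb_single]
  have e1 : β / (2 * Real.cosh (tt z) ^ 2) = β * (2 * XX z * YY z) / RR z ^ 2 := by
    have := cosh_tt hz
    have hc := Real.cosh_pos (tt z)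
    have e : β / (2 * Real.cosh (tt z) ^ 2) = β / 2 * (1 / Real.cosh (tt z) ^ 2) := by
      field_simp
    rw [e, this]
    unfold RR
    field_simp
    ring
  have e2 : RR z ^ (k / 2) = RR z ^ (k / 2 - 1) * RR z := by
    rw [← Real.rpow_add_one hR.ne']
    congr 1
    ring
  rw [e1, e2]
  unfold kap
  field_simp
  ring

lemma sum_sq (z : E) (a b : ℝ) :
    ∑ j, z j ^ 2 * (cX j * a + cY j * b) = XX z * a + YY z * b := by
  rw [XX_eq, YY_eq]
  simp [Fin.sum_univ_eight, cX, cY]
  ring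

lemma norm_grad {z : E} (hz : z ∈ UU) (c w β : ℝ) :
    ∑ j, (z j * (c * (w + kap z j * β))) ^ 2
      = c ^ 2 * RR z * (w ^ 2 + β ^ 2 / Real.cosh (tt z) ^ 2) := by
  have hX := hz.1
  have hY := hz.2
  have hR := RR_pos hz
  have e : ∀ j, (z j * (c * (w + kap z j * β))) ^ 2
      = z j ^ 2 * (cX j * (c * (w + 2 * YY z / RR z * β)) ^ 2
        + cY j * (c * (w - 2 * XX z / RR z * β)) ^ 2) := by
    intro j
    unfold kap cX cY
    split_ifs <;> ring
  simp only [e]
  rw [sum_sq]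
  have h2 := cosh_tt hz
  have h3 : β ^ 2 / Real.cosh (tt z) ^ 2 = β ^ 2 * (4 * XX z * YY z / (XX z + YY z) ^ 2) := by
    rw [← h2]
    ring
  rw [h3]
  unfold RR
  field_simp
  ring

lemma div_F {z : E} (hz : z ∈ UU) {e A B A' B' : ℝ} :
    ∑ j, (RR z ^ e * (A + kap z j * B)
      + z j * (z j * (RR z ^ e * (A' + kap z j * B' - 1 / Real.cosh (tt z) ^ 2 * B)
          * (cX j / XX z - cY j / YY z)
        + 2 * e * RR z ^ (e - 1) * (A + kap z j * B))))
      = RR z ^ e * (2 * (B' - 4 * Real.tanh (tt z) * B + (4 + e) * A)) := by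
  have hX := hz.1
  have hY := hz.2
  have hR := RR_pos hz
  have e2 : RR z ^ e = RR z ^ (e - 1) * RR z := by
    rw [← Real.rpow_add_one hR.ne']
    congr 1
    ring
  have s1 : ∑ j, (A + kap z j * B) = 8 * A - 8 * Real.tanh (tt z) * B := by
    simp only [kap_eq hz]
    simp [Fin.sum_univ_eight, cX, cY]
    ring
  have s2 : ∑ j, z j ^ 2 * ((A' + kap z j * B' - 1 / Real.cosh (tt z) ^ 2 * B)
          * (cX j / XX z - cY j / YY z)) = 2 * B' := by
    have e : ∀ j, z j ^ 2 * ((A' + kap z j * B' - 1 / Real.cosh (tt z) ^ 2 * B)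
          * (cX j / XX z - cY j / YY z))
        = z j ^ 2 * (cX j * ((A' + (1 - Real.tanh (tt z)) * B'
            - 1 / Real.cosh (tt z) ^ 2 * B) / XX z)
          + cY j * (-(A' + (-1 - Real.tanh (tt z)) * B'
            - 1 / Real.cosh (tt z) ^ 2 * B) / YY z)) := by
      intro j
      rw [kap_eq hz]
      unfold cX cY
      split_ifs <;> ring
    simp only [e]
    rw [sum_sq]
    field_simp
    ring
  have s3 : ∑ j, z j ^ 2 * (A + kap z j * B) = RR z * A := by
    have e : ∀ j, z j ^ 2 * (A + kap z j * B)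
        = z j ^ 2 * (cX j * (A + 2 * YY z / RR z * B) + cY j * (A - 2 * XX z / RR z * B)) := by
      intro j
      unfold kap cX cY
      split_ifs <;> ring
    simp only [e]
    rw [sum_sq]
    unfold RR at hR ⊢
    field_simp
    ring
  have key : ∀ j, (RR z ^ e * (A + kap z j * B)
      + z j * (z j * (RR z ^ e * (A' + kap z j * B' - 1 / Real.cosh (tt z) ^ 2 * B)
          * (cX j / XX z - cY j / YY z)
        + 2 * e * RR z ^ (e - 1) * (A + kap z j * B))))
      = RR z ^ e * (A + kap z j * B)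
        + RR z ^ e * (z j ^ 2 * ((A' + kap z j * B' - 1 / Real.cosh (tt z) ^ 2 * B)
          * (cX j / XX z - cY j / YY z)))
        + 2 * e * RR z ^ (e - 1) * (z j ^ 2 * (A + kap z j * B)) := by
    intro j
    ring
  simp only [key]
  rw [Finset.sum_add_distrib, Finset.sum_add_distrib, ← Finset.mul_sum, ← Finset.mul_sum,
    ← Finset.mul_sum, s1, s2, s3, e2]
  ring

end Pool.Agent.Helper749.ConeGeo
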