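import Pool.Agent.Helper749.ConeSol

set_option autoImplicit false

namespace Pool.Agent.Helper749.ConeInt

open Set Filter Topology MeasureTheory
open Pool.Agent.Helper749.ConeOde Pool.Agent.Helper749.ConeFun Pool.Agent.Helper749.PReg
open Pool.Agent.Helper749.ConeGeo Pool.Agent.Helper749.ConeSol
open scoped ContDiff

variable {μ : ℝ} (Pr : Prof μ)

lemma continuous_uu : Continuous (uu Pr) := (differentiable_uu Pr).continuous

lemma continuous_RRpow {s : ℝ} (hs : 0 ≤ s) : Continuous fun z => RR z ^ s :=
  continuous_RR.rpow_const fun _ => Or.inr hs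

lemma memLpLoc_of_le {p : ℝ} {h c : E → ℝ} (hm : Measurable h) (hc : Continuous c)
    (hle : ∀ᵐ z, |h z| ≤ c z) : MemLpLoc p univ h := by
  intro K hK _
  obtain ⟨C, hC⟩ := hK.exists_bound_of_continuousOn hc.continuousOn
  have : IsFiniteMeasure (volume.restrict K) :=
    ⟨by rw [Measure.restrict_apply_univ]; exact hK.measure_lt_top⟩
  refine MemLp.of_bound hm.aestronglyMeasurable C ?_
  have h2 : ∀ᵐ z ∂(volume.restrict K), |h z| ≤ c z := ae_restrict_of_ae hle
  have h3 : ∀ᵐ z ∂(volume.restrict K), z ∈ K := ae_restrict_mem hK.measurableSet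
  filter_upwards [h2, h3] with z hz1 hz2
  rw [Real.norm_eq_abs]
  have := hC z hz2
  rw [Real.norm_eq_abs] at this
  exact hz1.trans ((le_abs_self _).trans this)

lemma integrable_of_le {h c : E → ℝ} (hm : Measurable h) (hc : Continuous c)
    (hs : HasCompactSupport c) (hle : ∀ᵐ z, |h z| ≤ c z) : Integrable h := by
  refine (hc.integrable_of_hasCompactSupport hs).mono' hm.aestronglyMeasurable ?_
  filter_upwards [hle] with z hz
  exact hz

lemma measurable_GG (i : Fin 8) : Measurable fun z => GG Pr z i :=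
  measurable_fderiv_apply_const ℝ (uu Pr) (EuclideanSpace.single i 1)

lemma GG_le : ∀ᵐ z, ∀ i, |GG Pr z i| ≤ Pr.M * RR z ^ ((Pr.k - 1) / 2) := by
  filter_upwards [ae_UU] with z hz i
  have h1 : ‖GG Pr z i‖ ≤ ‖GG Pr z‖ := PiLp.norm_apply_le _ i
  rw [norm_GG Pr hz, Real.norm_eq_abs] at h1
  refine h1.trans ?_
  rw [mul_comm]
  exact mul_le_mul_of_nonneg_right (Pr.ρM _) (Real.rpow_nonneg (RR_nonneg z) _)

lemma memLp_uu (p : ℝ) : MemLpLoc p univ (uu Pr) :=
  memLpLoc_of_le (continuous_uu Pr).measurable (continuous_uu Pr).abs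
    (Eventually.of_forall fun _ => le_rfl)

lemma memLp_GG (p : ℝ) (i : Fin 8) : MemLpLoc p univ fun z => GG Pr z i := by
  have hk := Pr.hk2
  refine memLpLoc_of_le (measurable_GG Pr i)
    (continuous_const.mul (continuous_RRpow (s := (Pr.k - 1) / 2) (by linarith))) (c := fun z =>
      Pr.M * RR z ^ ((Pr.k - 1) / 2)) ?_
  filter_upwards [GG_le Pr] with z hz
  exact hz i

lemma continuous_pd {φ : E → ℝ} (h : ContDiff ℝ ∞ φ) (i : Fin 8) : Continuous (pd i φ) := by
  unfold pd
  exact (h.continuous_fderiv (by simp)).clm_apply continuous_const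

lemma hasCompactSupport_pd {φ : E → ℝ} (h : HasCompactSupport φ) (i : Fin 8) :
    HasCompactSupport (pd i φ) := by
  have := h.fderiv (𝕜 := ℝ)
  refine this.comp_left (g := fun L : E →L[ℝ] ℝ => L (EuclideanSpace.single i 1)) ?_
  simp

lemma isWeakGrad_uu : IsWeakGrad univ (uu Pr) (GG Pr) := by
  intro φ hφ i
  obtain ⟨h1, h2, -⟩ := hφ
  have hk := Pr.hk2
  rw [Measure.restrict_univ]
  have hcφ : Continuous φ := h1.continuous
  have e := integral_mul_fderiv_eq_neg_fderiv_mul_of_integrable (μ := (volume : Measure E))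
    (f := uu Pr) (g := φ) (v := EuclideanSpace.single i 1) ?_ ?_ ?_ ?_ ?_
  · exact e
  · refine integrable_of_le (h := fun z => GG Pr z i * φ z)
      (c := fun z => Pr.M * RR z ^ ((Pr.k - 1) / 2) * |φ z|)
      ((measurable_GG Pr i).mul hcφ.measurable) ?_ ?_ ?_
    · exact (continuous_const.mul (continuous_RRpow (by linarith))).mul hcφ.abs
    · exact HasCompactSupport.mul_left (h2.comp_left (g := abs) (by simp))
    · filter_upwards [GG_le Pr] with z hz
      rw [abs_mul]
      exact mul_le_mul_of_nonneg_right (hz i) (abs_nonneg _)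
  · exact ((continuous_uu Pr).mul (continuous_pd h1 i)).integrable_of_hasCompactSupport
      (HasCompactSupport.mul_left (hasCompactSupport_pd h2 i))
  · exact ((continuous_uu Pr).mul hcφ).integrable_of_hasCompactSupport
      (HasCompactSupport.mul_left h2)
  · exact fun x _ => differentiable_uu Pr x
  · exact fun x _ => h1.differentiable (by simp) x

lemma contDiff_qf (c : Fin 8 → ℝ) : ContDiff ℝ ∞ (qf c) := by
  unfold qf
  apply ContDiff.sum
  intro i _
  exact contDiff_const.mul (((EuclideanSpace.proj i : E →L[ℝ] ℝ).contDiff).pow 2)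

lemma contDiff_RR : ContDiff ℝ ∞ RR := (contDiff_qf cX).add (contDiff_qf cY)

lemma contDiffAt_tt {z : E} (hz : z ∈ UU) : ContDiffAt ℝ 1 tt z := by
  have hX : ContDiffAt ℝ 1 XX z := ((contDiff_qf cX).of_le (by simp)).contDiffAt
  have hY : ContDiffAt ℝ 1 YY z := ((contDiff_qf cY).of_le (by simp)).contDiffAt
  exact ((hX.log hz.1.ne').sub (hY.log hz.2.ne')).div_const 2

lemma continuous_A : Continuous Pr.A :=
  continuous_iff_continuousAt.mpr fun t => (Pr.dA t).continuousAt

lemma continuous_B : Continuous Pr.B :=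
  continuous_iff_continuousAt.mpr fun t => (Pr.dB t).continuousAt

lemma continuous_cc' (j : Fin 8) : Continuous (cc' Pr j) := by
  unfold cc'
  have hT := continuous_tanh
  have hA := continuous_A Pr
  have hB := continuous_B Pr
  have hc := Real.continuous_cosh
  refine ((Pr.cA').add ((continuous_const.sub hT).mul
    (((continuous_const.mul hT).mul hB).sub (continuous_const.mul hA)))).sub ?_
  refine (continuous_const.div (hc.pow 2) ?_).mul hB
  intro t
  exact (pow_pos (Real.cosh_pos t) 2).ne'

lemma contDiff_cc (j : Fin 8) : ContDiff ℝ 1 (cc Pr j) := by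
  rw [contDiff_one_iff_deriv]
  refine ⟨fun t => (hasDerivAt_cc Pr j t).differentiableAt, ?_⟩
  have : deriv (cc Pr j) = cc' Pr j := funext fun t => (hasDerivAt_cc Pr j t).deriv
  rw [this]
  exact continuous_cc' Pr j

lemma contDiffOn_FF (j : Fin 8) : ContDiffOn ℝ 1 (FF Pr j) UU := by
  intro z hz
  apply ContDiffAt.contDiffWithinAt
  unfold FF bb
  have h1 : ContDiffAt ℝ 1 (fun z : E => z j) z :=
    ((EuclideanSpace.proj j : E →L[ℝ] ℝ).contDiff).contDiffAt
  have h2 : ContDiffAt ℝ 1 (fun z : E => RR z ^ ee Pr) z :=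
    ((contDiff_RR.of_le (by simp)).contDiffAt).rpow_const_of_ne (RR_pos hz).ne'
  have h3 : ContDiffAt ℝ 1 (fun z : E => cc Pr j (tt z)) z :=
    (contDiff_cc Pr j).contDiffAt.comp z (contDiffAt_tt hz)
  exact h1.mul (h2.mul h3)

lemma continuous_mul_of_supp {h ψ : E → ℝ} (hh : ContinuousOn h UU) (hψ : Continuous ψ)
    (hs : tsupport ψ ⊆ UU) : Continuous fun z => h z * ψ z := by
  apply continuous_of_tsupport
  intro z hz
  have hz2 : z ∈ tsupport ψ := by
    refine closure_mono ?_ hz
    intro w hw
    simp only [Function.mem_support, ne_eq] at hw ⊢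
    exact fun h0 => hw (by rw [h0, mul_zero])
  exact (hh.continuousAt (isOpen_UU.mem_nhds (hs hz2))).mul hψ.continuousAt

/-- The weak equation for test functions supported away from the two axes. -/
lemma weak_away {ψ : E → ℝ} (h1 : ContDiff ℝ ∞ ψ) (h2 : HasCompactSupport ψ)
    (h3 : tsupport ψ ⊆ UU) : ∫ z, ∑ j, FF Pr j z * pd j ψ z = 0 := by
  have hcψ : Continuous ψ := h1.continuous
  have hsup : ∀ j, tsupport (pd j ψ) ⊆ UU := by
    intro j
    refine Subset.trans ?_ h3
    have h5 : Function.support (pd j ψ) ⊆ tsupport ψ := by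
      intro w hw
      have h6 : fderiv ℝ ψ w ≠ 0 := by
        intro h0
        apply hw
        unfold pd
        rw [h0]
        simp
      exact support_fderiv_subset ℝ h6
    exact closure_minimal h5 (isClosed_tsupport ψ)
  have hFc : ∀ j, ContinuousOn (FF Pr j) UU := fun j => (contDiffOn_FF Pr j).continuousOn
  have hdFc : ∀ j, ContinuousOn (pd j (FF Pr j)) UU := by
    intro j
    have := (contDiffOn_FF Pr j).continuousOn_fderiv_of_isOpen isOpen_UU le_rfl
    exact this.clm_apply continuousOn_const
  have i1 : ∀ j, Integrable fun z => FF Pr j z * pd j ψ z := fun j =>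
    (continuous_mul_of_supp (hFc j) (continuous_pd h1 j)
      (hsup j)).integrable_of_hasCompactSupport (HasCompactSupport.mul_left (hasCompactSupport_pd h2 j))
  have i2 : ∀ j, Integrable fun z => pd j (FF Pr j) z * ψ z := fun j =>
    (continuous_mul_of_supp (hdFc j) hcψ h3).integrable_of_hasCompactSupport
      (HasCompactSupport.mul_left h2)
  have i3 : ∀ j, Integrable fun z => FF Pr j z * ψ z := fun j =>
    (continuous_mul_of_supp (hFc j) hcψ h3).integrable_of_hasCompactSupport
      (HasCompactSupport.mul_left h2)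
  have ibp : ∀ j, ∫ z, FF Pr j z * pd j ψ z = -∫ z, pd j (FF Pr j) z * ψ z := by
    intro j
    exact integral_mul_fderiv_eq_neg_fderiv_mul_of_integrable (μ := (volume : Measure E))
      (f := FF Pr j) (g := ψ) (v := EuclideanSpace.single j 1) (i2 j) (i1 j) (i3 j)
      (fun x hx => ((contDiffOn_FF Pr j).differentiableOn (by simp)).differentiableAt
        (isOpen_UU.mem_nhds (h3 hx)))
      (fun x _ => h1.differentiable (by simp) x)
  rw [integral_finsetSum _ (fun j _ => i1 j)]
  simp only [ibp]
  rw [Finset.sum_neg_distrib, ← integral_finsetSum _ (fun j _ => i2 j), neg_eq_zero]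
  have : (fun z => ∑ j, pd j (FF Pr j) z * ψ z) = fun _ => 0 := by
    ext z
    rw [← Finset.sum_mul]
    by_cases hz : z ∈ UU
    · rw [div_zero Pr hz, zero_mul]
    · have : ψ z = 0 := by
        by_contra h0
        exact hz (h3 (subset_tsupport ψ h0))
      rw [this, mul_zero]
  rw [this, integral_zero]

/-- The cutoff. -/
noncomputable def chi (n : ℝ) (z : E) : ℝ := Real.smoothTransition (n * (XX z * YY z) - 1)

lemma exists_bound_transition :
    ∃ D : ℝ, 0 ≤ D ∧ ∀ s : ℝ, |s * deriv Real.smoothTransition (s - 1)| ≤ D := by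
  have hc : Continuous (deriv Real.smoothTransition) :=
    (Real.smoothTransition.contDiff (n := 1)).continuous_deriv le_rfl
  have hzero : ∀ x, x ∉ Icc (0:ℝ) 1 → deriv Real.smoothTransition x = 0 := by
    intro x hx
    rw [mem_Icc, not_and_or, not_le, not_le] at hx
    rcases hx with h | h
    · have : Real.smoothTransition =ᶠ[𝓝 x] fun _ => 0 := by
        filter_upwards [Iio_mem_nhds h] with y hy
        exact Real.smoothTransition.zero_of_nonpos (le_of_lt hy)
      rw [this.deriv_eq]
      simp
    · have : Real.smoothTransition =ᶠ[𝓝 x] fun _ => 1 := by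
        filter_upwards [Ioi_mem_nhds h] with y hy
        exact Real.smoothTransition.one_of_one_le (le_of_lt hy)
      rw [this.deriv_eq]
      simp
  have hcont : Continuous fun s : ℝ => s * deriv Real.smoothTransition (s - 1) :=
    continuous_id.mul (hc.comp (continuous_id.sub continuous_const))
  have hsupp : HasCompactSupport fun s : ℝ => s * deriv Real.smoothTransition (s - 1) := by
    apply HasCompactSupport.intro (isCompact_Icc (a := (1:ℝ)) (b := 2))
    intro x hx
    rw [hzero, mul_zero]
    intro h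
    apply hx
    constructor <;> linarith [h.1, h.2]
  obtain ⟨C, hC⟩ := hcont.bounded_above_of_compact_support hsupp
  refine ⟨C, (norm_nonneg _).trans (hC 0), fun s => ?_⟩
  have := hC s
  rwa [Real.norm_eq_abs] at this

lemma contDiff_chi (n : ℝ) : ContDiff ℝ ∞ (chi n) := by
  unfold chi
  refine (Real.smoothTransition.contDiff (n := ⊤)).comp ?_
  exact (contDiff_const.mul ((contDiff_qf cX).mul (contDiff_qf cY))).sub contDiff_const

lemma pd_chi (n : ℝ) (z : E) (j : Fin 8) :
    pd j (chi n) z = deriv Real.smoothTransition (n * (XX z * YY z) - 1)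
      * (n * (2 * z j * (cX j * YY z + cY j * XX z))) := by
  have h1 : HasFDerivAt (fun z => n * (XX z * YY z) - 1)
      (n • (XX z • dqf cY z + YY z • dqf cX z)) z :=
    (((hasFDerivAt_qf cX z).mul (hasFDerivAt_qf cY z)).const_mul n).sub_const 1
  have h2 : HasDerivAt Real.smoothTransition
      (deriv Real.smoothTransition (n * (XX z * YY z) - 1)) (n * (XX z * YY z) - 1) :=
    ((Real.smoothTransition.contDiff (n := 1)).differentiable (by simp) _).hasDerivAt
  have h3 := h2.comp_hasFDerivAt z h1
  unfold pd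
  have h4 : fderiv ℝ (chi n) z = _ := h3.fderiv
  rw [h4]
  simp only [_root_.add_apply, _root_.smul_apply, smul_eq_mul, dqf_single]
  ring

lemma tsupport_chi (n : ℝ) : tsupport (chi n) ⊆ UU := by
  have h1 : Function.support (chi n) ⊆ {z | 1 ≤ n * (XX z * YY z)} := by
    intro z hz
    by_contra h
    simp only [mem_ofPred_eq, not_le] at h
    apply hz
    exact Real.smoothTransition.zero_of_nonpos (by linarith)
  have h2 : IsClosed {z : E | 1 ≤ n * (XX z * YY z)} :=
    isClosed_le continuous_const (continuous_const.mul (continuous_XX.mul continuous_YY))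
  refine (closure_minimal h1 h2).trans ?_
  intro z hz
  simp only [mem_ofPred_eq] at hz
  have h3 := XX_nonneg z
  have h4 := YY_nonneg z
  constructor
  · rcases h3.eq_or_lt with h | h
    · rw [← h] at hz
      norm_num at hz
    · exact h
  · rcases h4.eq_or_lt with h | h
    · rw [← h] at hz
      norm_num at hz
    · exact h

lemma flux_chi (z : E) (n : ℝ) :
    ∑ j, FF Pr j z * pd j (chi n) z
      = (n * (XX z * YY z)) * deriv Real.smoothTransition (n * (XX z * YY z) - 1)
        * (RR z ^ ee Pr * (4 * (Pr.A (tt z) - Real.tanh (tt z) * Pr.B (tt z)))) := by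
  have e : ∀ j, FF Pr j z * pd j (chi n) z
      = z j ^ 2 * (cX j * (deriv Real.smoothTransition (n * (XX z * YY z) - 1)
          * RR z ^ ee Pr * (2 * n) * YY z * (Pr.A (tt z) + (1 - Real.tanh (tt z)) * Pr.B (tt z)))
        + cY j * (deriv Real.smoothTransition (n * (XX z * YY z) - 1)
          * RR z ^ ee Pr * (2 * n) * XX z * (Pr.A (tt z) + (-1 - Real.tanh (tt z)) * Pr.B (tt z)))) := by
    intro j
    rw [pd_chi]
    unfold FF bb cc cX cY
    split_ifs <;> ring
  simp only [e]
  rw [sum_sq]
  ring

lemma measurable_FF (j : Fin 8) : Measurable (FF Pr j) := by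
  unfold FF bb tt
  have h1 : Measurable fun z : E => z j := (EuclideanSpace.proj j : E →L[ℝ] ℝ).continuous.measurable
  have h2 : Measurable fun z : E => RR z ^ ee Pr := continuous_RR.measurable.pow_const _
  have h3 : Measurable fun z : E => (Real.log (XX z) - Real.log (YY z)) / 2 :=
    ((Real.measurable_log.comp continuous_XX.measurable).sub
      (Real.measurable_log.comp continuous_YY.measurable)).div_const 2
  exact h1.mul (h2.mul ((contDiff_cc Pr j).continuous.measurable.comp h3))

lemma locallyIntegrable_RR : LocallyIntegrable (fun z : E => RR z ^ ee Pr) := by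
  have hk2 := Pr.hk2
  have hk3 := Pr.hk3
  have h0 := Pr.hμ0
  have h1 := Pr.hμ1
  refine locallyIntegrable_of_norm_le_rpow (C := 1) (α := -(2 * ee Pr)) ?_ ?_ ?_ ?_
  · simp
  · unfold ee
    simp
    nlinarith
  · filter_upwards with z
    rw [neg_neg, one_mul, Real.norm_eq_abs, abs_of_nonneg (Real.rpow_nonneg (RR_nonneg z) _),
      RR_eq_norm, ← Real.rpow_natCast_mul (norm_nonneg z)]
    norm_num
  · exact (continuous_RR.measurable.pow_const _).aestronglyMeasurable

/-- The weak equation for the flux. -/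
theorem weak_FF {φ : E → ℝ} (h1 : ContDiff ℝ ∞ φ) (h2 : HasCompactSupport φ) :
    ∫ z, ∑ j, FF Pr j z * pd j φ z = 0 := by
  have hk2 := Pr.hk2
  have h0 := Pr.hμ0
  have hM := Pr.hM
  obtain ⟨D, hD0, hD⟩ := exists_bound_transition
  have hcφ : Continuous φ := h1.continuous
  -- the truncated test functions
  set ψ : ℕ → E → ℝ := fun n z => φ z * chi ((n : ℝ) + 1) z with hψ
  have hψ1 : ∀ n, ContDiff ℝ ∞ (ψ n) := fun n => h1.mul (contDiff_chi _)
  have hψ2 : ∀ n, HasCompactSupport (ψ n) := fun n => h2.mul_right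
  have hψ3 : ∀ n, tsupport (ψ n) ⊆ UU := by
    intro n
    refine Subset.trans ?_ (tsupport_chi ((n : ℝ) + 1))
    apply closure_mono
    intro w hw
    simp only [hψ, Function.mem_support, ne_eq] at hw ⊢
    exact fun h0 => hw (by rw [h0, mul_zero])
  have hzero : ∀ n, ∫ z, ∑ j, FF Pr j z * pd j (ψ n) z = 0 :=
    fun n => weak_away Pr (hψ1 n) (hψ2 n) (hψ3 n)
  have hpd : ∀ n z j, pd j (ψ n) z = φ z * pd j (chi ((n : ℝ) + 1)) z
      + chi ((n : ℝ) + 1) z * pd j φ z := by
    intro n z j
    have e1 : DifferentiableAt ℝ φ z := h1.differentiable (by simp) z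
    have e2 : DifferentiableAt ℝ (chi ((n : ℝ) + 1)) z :=
      (contDiff_chi _).differentiable (by simp) z
    have e3 := (e1.hasFDerivAt.mul e2.hasFDerivAt).fderiv
    unfold pd
    have e4 : fderiv ℝ (ψ n) z = φ z • fderiv ℝ (chi ((n : ℝ) + 1)) z
      + chi ((n : ℝ) + 1) z • fderiv ℝ φ z := e3
    rw [e4]
    simp
  have hsplit : ∀ n z, ∑ j, FF Pr j z * pd j (ψ n) z
      = φ z * ∑ j, FF Pr j z * pd j (chi ((n : ℝ) + 1)) z
        + chi ((n : ℝ) + 1) z * ∑ j, FF Pr j z * pd j φ z := by
    intro n z
    rw [Finset.mul_sum, Finset.mul_sum, ← Finset.sum_add_distrib]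
    apply Finset.sum_congr rfl
    intro j _
    rw [hpd]
    ring
  -- dominated convergence
  have hlim : Tendsto (fun n : ℕ => ∫ z, ∑ j, FF Pr j z * pd j (ψ n) z) atTop
      (𝓝 (∫ z, ∑ j, FF Pr j z * pd j φ z)) := by
    refine tendsto_integral_of_dominated_convergence
      (fun z => |φ z| * (D * 8 * Pr.M * RR z ^ ee Pr)
        + ∑ j, (3 * Pr.M * RR z ^ ((Pr.k - 1) * μ / 2)) * |pd j φ z|) ?_ ?_ ?_ ?_
    · intro n
      exact (Finset.measurable_sum _ fun j _ =>
        (measurable_FF Pr j).mul (continuous_pd (hψ1 n) j).measurable).aestronglyMeasurable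
    · refine Integrable.add ?_ ?_
      · have hL : LocallyIntegrable (fun z : E => D * 8 * Pr.M * RR z ^ ee Pr) :=
          (locallyIntegrable_RR Pr).smul (D * 8 * Pr.M)
        exact hL.integrable_smul_left_of_hasCompactSupport hcφ.abs
          (h2.comp_left (g := abs) (by simp))
      · apply integrable_finsetSum
        intro j _
        refine Continuous.integrable_of_hasCompactSupport ?_ ?_
        · refine (continuous_const.mul (continuous_RRpow ?_)).mul (continuous_pd h1 j).abs
          have : 0 < (Pr.k - 1) * μ := mul_pos (by linarith) h0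
          linarith
        · exact HasCompactSupport.mul_left ((hasCompactSupport_pd h2 j).comp_left (g := abs) (by simp))
    · intro n
      filter_upwards [ae_UU] with z hz
      rw [hsplit, Real.norm_eq_abs]
      refine (abs_add_le _ _).trans (add_le_add ?_ ?_)
      · rw [abs_mul]
        apply mul_le_mul_of_nonneg_left _ (abs_nonneg _)
        rw [flux_chi Pr z, abs_mul, abs_mul (RR z ^ ee Pr),
          abs_of_nonneg (Real.rpow_nonneg (RR_nonneg z) _)]
        have b1 := hD (((n : ℝ) + 1) * (XX z * YY z))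
        have b2 : |4 * (Pr.A (tt z) - Real.tanh (tt z) * Pr.B (tt z))| ≤ 8 * Pr.M := by
          rw [abs_mul, abs_of_pos (by norm_num : (0:ℝ) < 4)]
          have c1 : |Pr.A (tt z) - Real.tanh (tt z) * Pr.B (tt z)|
              ≤ |Pr.A (tt z)| + |Real.tanh (tt z) * Pr.B (tt z)| := abs_sub _ _
          rw [abs_mul] at c1
          have c2 := Pr.AM (tt z)
          have c3 := Pr.BM (tt z)
          have c4 := abs_tanh_le (tt z)
          have c5 : |Real.tanh (tt z)| * |Pr.B (tt z)| ≤ 1 * Pr.M :=
            mul_le_mul c4 c3 (abs_nonneg _) (by norm_num)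
          linarith
        have hR := Real.rpow_nonneg (RR_nonneg z) (ee Pr)
        calc |(((n : ℝ) + 1) * (XX z * YY z))
                * deriv Real.smoothTransition (((n : ℝ) + 1) * (XX z * YY z) - 1)|
              * (RR z ^ ee Pr * |4 * (Pr.A (tt z) - Real.tanh (tt z) * Pr.B (tt z))|)
            ≤ D * (RR z ^ ee Pr * (8 * Pr.M)) := by gcongr
          _ = D * 8 * Pr.M * RR z ^ ee Pr := by ring
      · rw [abs_mul]
        have d1 : |chi ((n : ℝ) + 1) z| ≤ 1 := by
          unfold chi
          rw [abs_of_nonneg (Real.smoothTransition.nonneg _)]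
          exact Real.smoothTransition.le_one _
        have d2 : |∑ j, FF Pr j z * pd j φ z|
            ≤ ∑ j, (3 * Pr.M * RR z ^ ((Pr.k - 1) * μ / 2)) * |pd j φ z| := by
          refine (Finset.abs_sum_le_sum_abs _ _).trans ?_
          apply Finset.sum_le_sum
          intro j _
          rw [abs_mul]
          exact mul_le_mul_of_nonneg_right (FF_bound Pr hz j) (abs_nonneg _)
        calc _ ≤ 1 * |∑ j, FF Pr j z * pd j φ z| :=
              mul_le_mul_of_nonneg_right d1 (abs_nonneg _)
          _ = |∑ j, FF Pr j z * pd j φ z| := one_mul _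
          _ ≤ _ := d2
    · filter_upwards [ae_UU] with z hz
      have hXY : 0 < XX z * YY z := mul_pos hz.1 hz.2
      have hev : ∀ᶠ n : ℕ in atTop, 2 < ((n : ℝ) + 1) * (XX z * YY z) := by
        have h5 : Tendsto (fun n : ℕ => ((n : ℝ) + 1) * (XX z * YY z)) atTop atTop :=
          (tendsto_atTop_add_const_right _ 1 tendsto_natCast_atTop_atTop).atTop_mul_const hXY
        exact h5.eventually_gt_atTop 2
      refine tendsto_const_nhds.congr' ?_
      filter_upwards [hev] with n hn
      rw [hsplit, flux_chi Pr z]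
      have e1 : chi ((n : ℝ) + 1) z = 1 :=
        Real.smoothTransition.one_of_one_le (by linarith)
      have e2 : deriv Real.smoothTransition (((n : ℝ) + 1) * (XX z * YY z) - 1) = 0 := by
        have : Real.smoothTransition =ᶠ[𝓝 (((n : ℝ) + 1) * (XX z * YY z) - 1)] fun _ => 1 := by
          filter_upwards [Ioi_mem_nhds (show 1 < ((n : ℝ) + 1) * (XX z * YY z) - 1 by linarith)]
            with y hy
          exact Real.smoothTransition.one_of_one_le (le_of_lt hy)
        rw [this.deriv_eq]
        simp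
      rw [e1, e2]
      ring
  simp only [hzero] at hlim
  exact (tendsto_nhds_unique hlim tendsto_const_nhds)

/-- The function is `p`-harmonic with `p = 1 + μ`. -/
theorem isPHarmonic_uu : IsPHarmonic (1 + μ) univ (uu Pr) := by
  refine ⟨memLp_uu Pr _, GG Pr, memLp_GG Pr _, isWeakGrad_uu Pr, ?_⟩
  intro φ hφ
  rw [Measure.restrict_univ, ← weak_FF Pr hφ.1 hφ.2.1]
  apply integral_congr_ae
  filter_upwards [ae_UU] with z hz
  rw [Finset.mul_sum]
  apply Finset.sum_congr rfl
  intro j _
  rw [← flux_eq Pr hz j, show (1 + μ - 2 : ℝ) = μ - 1 by ring]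
  ring

/-- The values on the first axis. -/
lemma uu_axis (s : ℝ) :
    uu Pr (EuclideanSpace.single 0 s) = Pr.Vp * |s| ^ Pr.k := by
  have hY : YY (EuclideanSpace.single (0 : Fin 8) s : E) = 0 := by
    rw [YY_eq]
    simp
  unfold uu
  rw [if_pos hY, RR_eq_norm, ← Real.rpow_natCast_mul (norm_nonneg _)]
  rw [show ‖(EuclideanSpace.single (0 : Fin 8) s : E)‖ = |s| from by simp]
  rw [mul_comm]
  congr 2
  push_cast
  ring

end Pool.Agent.Helper749.ConeInt
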