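import Mathlib

set_option autoImplicit false

namespace Pool.Agent.Helper749.ConeOde

open Set Filter Topology NNReal Metric

/-- Global existence for a bounded, globally Lipschitz scalar field. -/
theorem exists_global (F : ℝ → ℝ → ℝ) (hc : ∀ x, Continuous fun t => F t x) (K M : ℝ≥0)
    (hK : ∀ t, LipschitzWith K (F t)) (hM : ∀ t x, |F t x| ≤ M) (x0 : ℝ) :
    ∃ α : ℝ → ℝ, α 0 = x0 ∧ ∀ t, HasDerivAt α (F t (α t)) t := by
  have loc : ∀ n : ℕ, ∃ α : ℝ → ℝ, α 0 = x0 ∧
      ∀ t ∈ Icc (-((n : ℝ) + 1)) ((n : ℝ) + 1),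
        HasDerivWithinAt α (F t (α t)) (Icc (-((n : ℝ) + 1)) ((n : ℝ) + 1)) t := by
    intro n
    have hn : (0 : ℝ) ≤ (n : ℝ) + 1 := by positivity
    have h0 : (0 : ℝ) ∈ Icc (-((n : ℝ) + 1)) ((n : ℝ) + 1) := ⟨by linarith, hn⟩
    have hp : IsPicardLindelof F (tmin := -((n : ℝ) + 1)) (tmax := (n : ℝ) + 1) ⟨0, h0⟩ x0
        (M * ⟨(n : ℝ) + 1, hn⟩) 0 M K := by
      constructor
      · intro t _
        exact (hK t).lipschitzOnWith
      · intro x _
        exact (hc x).continuousOn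
      · intro t _ x _
        rw [Real.norm_eq_abs]
        exact hM t x
      · simp only [sub_zero, zero_sub, neg_neg, max_self, NNReal.coe_zero]
        exact le_refl _
    exact hp.exists_eq_forall_mem_Icc_hasDerivWithinAt₀
  choose α hα0 hα using loc
  have hαd : ∀ n : ℕ, ∀ t ∈ Ioo (-((n : ℝ) + 1)) ((n : ℝ) + 1),
      HasDerivAt (α n) (F t (α n t)) t := by
    intro n t ht
    exact (hα n t (Ioo_subset_Icc_self ht)).hasDerivAt (Icc_mem_nhds ht.1 ht.2)
  have huniq : ∀ m n : ℕ, m ≤ n → EqOn (α m) (α n) (Ioo (-((m : ℝ) + 1)) ((m : ℝ) + 1)) := by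
    intro m n hmn
    have hmn' : (m : ℝ) ≤ n := by exact_mod_cast hmn
    have hsub : Ioo (-((m : ℝ) + 1)) ((m : ℝ) + 1) ⊆ Ioo (-((n : ℝ) + 1)) ((n : ℝ) + 1) :=
      Ioo_subset_Ioo (by linarith) (by linarith)
    have hm0 : (0 : ℝ) ≤ m := by positivity
    exact ODE_solution_unique_of_mem_Ioo (s := fun _ => univ) (t₀ := 0)
      (fun t _ => (hK t).lipschitzOnWith) ⟨by linarith, by linarith⟩
      (fun t ht => ⟨hαd m t ht, trivial⟩) (fun t ht => ⟨hαd n t (hsub ht), trivial⟩)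
      (by rw [hα0, hα0])
  refine ⟨fun t => α (⌈|t|⌉₊) t, ?_, ?_⟩
  · simp [hα0]
  · intro t
    set N : ℕ := ⌈|t|⌉₊ + 1 with hN
    have hNt : |t| < N := by
      have := Nat.le_ceil |t|
      rw [hN]
      push_cast
      linarith
    have hmem : t ∈ Ioo (-((N : ℝ) + 1)) ((N : ℝ) + 1) := by
      rw [abs_lt] at hNt
      constructor <;> linarith [hNt.1, hNt.2]
    have hev : (fun s => α (⌈|s|⌉₊) s) =ᶠ[𝓝 t] α N := by
      have hopen : {s : ℝ | |s| < N} ∈ 𝓝 t :=
        (isOpen_lt continuous_abs continuous_const).mem_nhds hNt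
      filter_upwards [hopen] with s hs
      have h1 : ⌈|s|⌉₊ ≤ N := Nat.ceil_le.mpr (le_of_lt hs)
      have h2 : |s| < (⌈|s|⌉₊ : ℝ) + 1 := by
        have := Nat.le_ceil |s|
        linarith
      rw [abs_lt] at h2
      exact huniq _ _ h1 ⟨h2.1, h2.2⟩
    have h3 := (hαd N t hmem).congr_of_eventuallyEq hev
    have h4 : α (⌈|t|⌉₊) t = α N t := hev.self_of_nhds
    change HasDerivAt (fun s => α (⌈|s|⌉₊) s) (F t (α (⌈|t|⌉₊) t)) t
    rw [h4]
    exact h3

/-- Comparison of a subsolution and a supersolution, forward in time. -/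
theorem comparison (F : ℝ → ℝ → ℝ) (K : ℝ≥0) (hK : ∀ t, LipschitzWith K (F t))
    {z w z' w' : ℝ → ℝ} {a : ℝ} (hz : ∀ t, a ≤ t → HasDerivAt z (z' t) t)
    (hw : ∀ t, a ≤ t → HasDerivAt w (w' t) t)
    (hz' : ∀ t, a ≤ t → z' t ≤ F t (z t)) (hw' : ∀ t, a ≤ t → F t (w t) ≤ w' t)
    (h0 : z a ≤ w a) : ∀ t, a ≤ t → z t ≤ w t := by
  intro b hab
  -- add a small exponential
  have key : ∀ ε : ℝ, 0 < ε → z b ≤ w b + ε * Real.exp ((K + 1) * (b - a)) := by
    intro ε hε
    have hexp : ∀ t, HasDerivAt (fun t => ε * Real.exp (((K : ℝ) + 1) * (t - a)))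
        (ε * (Real.exp (((K : ℝ) + 1) * (t - a)) * ((K : ℝ) + 1))) t := by
      intro t
      have h1 : HasDerivAt (fun t => ((K : ℝ) + 1) * (t - a)) ((K : ℝ) + 1) t := by
        simpa using ((hasDerivAt_id t).sub_const a).const_mul ((K : ℝ) + 1)
      exact (h1.exp).const_mul ε
    have hB : ∀ t ∈ Icc a b, HasDerivAt (fun t => w t + ε * Real.exp (((K : ℝ) + 1) * (t - a)))
        (w' t + ε * (Real.exp (((K : ℝ) + 1) * (t - a)) * ((K : ℝ) + 1))) t :=
      fun t ht => (hw t ht.1).add (hexp t)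
    have := image_le_of_deriv_right_lt_deriv_boundary' (f := z) (f' := z') (a := a) (b := b)
      (B := fun t => w t + ε * Real.exp (((K : ℝ) + 1) * (t - a)))
      (B' := fun t => w' t + ε * (Real.exp (((K : ℝ) + 1) * (t - a)) * ((K : ℝ) + 1)))
      (fun t ht => (hz t ht.1).continuousAt.continuousWithinAt)
      (fun t ht => (hz t ht.1).hasDerivWithinAt)
      (by
        simp only [sub_self, mul_zero, Real.exp_zero, mul_one]
        linarith)
      (fun t ht => (hB t ht).continuousAt.continuousWithinAt)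
      (fun t ht => (hB t (Ico_subset_Icc_self ht)).hasDerivWithinAt)
      (by
        intro t ht heq
        have e1 : 0 < ε * Real.exp (((K : ℝ) + 1) * (t - a)) := by positivity
        have h1 := hz' t ht.1
        have h2 := hw' t ht.1
        have h3 := (hK t).dist_le_mul (z t) (w t)
        rw [Real.dist_eq, Real.dist_eq] at h3
        have h4 : |z t - w t| = ε * Real.exp (((K : ℝ) + 1) * (t - a)) := by
          rw [heq]
          simp only [add_sub_cancel_left]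
          exact abs_of_pos e1
        rw [h4] at h3
        have h5 := le_abs_self (F t (z t) - F t (w t))
        nlinarith)
      (right_mem_Icc.mpr hab)
    exact this
  by_contra hcon
  push Not at hcon
  have hE : 0 < Real.exp (((K : ℝ) + 1) * (b - a)) := Real.exp_pos _
  have := key ((z b - w b) / (2 * Real.exp (((K : ℝ) + 1) * (b - a))))
    (div_pos (by linarith) (by positivity))
  have e : (z b - w b) / (2 * Real.exp (((K : ℝ) + 1) * (b - a)))
      * Real.exp (((K : ℝ) + 1) * (b - a)) = (z b - w b) / 2 := by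
    field_simp
  rw [e] at this
  linarith

/-- The denominator. -/
noncomputable def DD (μ x : ℝ) : ℝ := Real.cos x ^ 2 + μ * Real.sin x ^ 2

/-- The numerator. -/
noncomputable def NN (μ k t x : ℝ) : ℝ :=
  3 * Real.tanh t * (Real.sin x * Real.cos x)
    - (μ * k + (7 - μ) * Real.cos x ^ 2) / (2 * Real.cosh t)

/-- The field. -/
noncomputable def HH (μ k t x : ℝ) : ℝ := NN μ k t x / DD μ x

lemma DD_lower {μ : ℝ} (h1 : μ < 1) (x : ℝ) : μ ≤ DD μ x := by
  unfold DD
  nlinarith [Real.sin_sq_add_cos_sq x, sq_nonneg (Real.cos x)]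

lemma DD_upper {μ : ℝ} (h1 : μ < 1) (x : ℝ) : DD μ x ≤ 1 := by
  unfold DD
  nlinarith [Real.sin_sq_add_cos_sq x, sq_nonneg (Real.sin x)]

lemma DD_pos {μ : ℝ} (h0 : 0 < μ) (h1 : μ < 1) (x : ℝ) : 0 < DD μ x :=
  lt_of_lt_of_le h0 (DD_lower h1 x)

lemma abs_tanh_le (t : ℝ) : |Real.tanh t| ≤ 1 := by
  rw [Real.tanh_eq_sinh_div_cosh, abs_div, abs_of_pos (Real.cosh_pos t),
    div_le_one (Real.cosh_pos t), abs_le]
  have h := Real.cosh_sq t
  have hc := Real.cosh_pos t
  constructor <;> nlinarith [sq_nonneg (Real.sinh t)]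

lemma sc_bound (x : ℝ) : |Real.sin x * Real.cos x| ≤ 1 / 2 := by
  rw [abs_le]
  constructor <;>
    nlinarith [Real.sin_sq_add_cos_sq x, sq_nonneg (Real.sin x - Real.cos x),
      sq_nonneg (Real.sin x + Real.cos x)]

lemma cosh_half (t : ℝ) {a c : ℝ} (ha : |a| ≤ c) : |a / (2 * Real.cosh t)| ≤ c := by
  have hc := Real.one_le_cosh t
  rw [abs_div, abs_of_pos (by linarith : 0 < 2 * Real.cosh t), div_le_iff₀ (by linarith)]
  have : 0 ≤ |a| := abs_nonneg a
  nlinarith

lemma NN_bound {μ k : ℝ} (h0 : 0 < μ) (h1 : μ < 1) (hk0 : 0 ≤ k) (hk3 : k ≤ 3) (t x : ℝ) :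
    |NN μ k t x| ≤ 15 := by
  unfold NN
  have a1 : |3 * Real.tanh t * (Real.sin x * Real.cos x)| ≤ 3 := by
    rw [abs_mul, abs_mul, abs_of_pos (by norm_num : (0:ℝ) < 3)]
    have := abs_tanh_le t
    have := sc_bound x
    nlinarith [abs_nonneg (Real.tanh t), abs_nonneg (Real.sin x * Real.cos x)]
  have a2 : |(μ * k + (7 - μ) * Real.cos x ^ 2) / (2 * Real.cosh t)| ≤ 10 := by
    apply cosh_half
    have hcs : Real.cos x ^ 2 ≤ 1 := Real.cos_sq_le_one x
    have hcs0 : 0 ≤ Real.cos x ^ 2 := sq_nonneg _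
    rw [abs_le]
    constructor <;> nlinarith
  refine (abs_sub _ _).trans ?_
  linarith

lemma HH_bound {μ k : ℝ} (h0 : 0 < μ) (h1 : μ < 1) (hk0 : 0 ≤ k) (hk3 : k ≤ 3) (t x : ℝ) :
    |HH μ k t x| ≤ 15 / μ := by
  unfold HH
  rw [abs_div, abs_of_pos (DD_pos h0 h1 x)]
  exact div_le_div₀ (by norm_num) (NN_bound h0 h1 hk0 hk3 t x) h0 (DD_lower h1 x)

lemma HH_diff {μ k k' : ℝ} (h0 : 0 < μ) (h1 : μ < 1) (t x : ℝ) :
    |HH μ k t x - HH μ k' t x| ≤ |k - k'| := by
  have hD := DD_pos h0 h1 x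
  have hc := Real.one_le_cosh t
  have e : HH μ k t x - HH μ k' t x = -(k - k') * (μ / DD μ x) * (1 / (2 * Real.cosh t)) := by
    unfold HH NN
    field_simp
    ring
  rw [e, abs_mul, abs_mul, abs_neg]
  have b1 : |μ / DD μ x| ≤ 1 := by
    rw [abs_div, abs_of_pos h0, abs_of_pos hD, div_le_one hD]
    exact DD_lower h1 x
  have b2 : |1 / (2 * Real.cosh t)| ≤ 1 := cosh_half t (by norm_num)
  calc |k - k'| * |μ / DD μ x| * |1 / (2 * Real.cosh t)| ≤ |k - k'| * 1 * 1 := by gcongr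
    _ = |k - k'| := by ring

lemma hasDerivAt_DD (μ x : ℝ) :
    HasDerivAt (DD μ) (-2 * (1 - μ) * (Real.sin x * Real.cos x)) x := by
  have h1 := (Real.hasDerivAt_cos x).pow 2
  have h2 := ((Real.hasDerivAt_sin x).pow 2).const_mul μ
  refine (h1.add h2).congr_deriv ?_
  simp
  ring

lemma hasDerivAt_NN (μ k t x : ℝ) :
    HasDerivAt (NN μ k t) (3 * Real.tanh t * (Real.cos x ^ 2 - Real.sin x ^ 2)
      - (-2 * (7 - μ) * (Real.sin x * Real.cos x)) / (2 * Real.cosh t)) x := by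
  have h1 := ((Real.hasDerivAt_sin x).mul (Real.hasDerivAt_cos x)).const_mul (3 * Real.tanh t)
  have h2 := ((((Real.hasDerivAt_cos x).pow 2).const_mul (7 - μ)).const_add (μ * k)).div_const
    (2 * Real.cosh t)
  refine (h1.sub h2).congr_deriv ?_
  simp
  ring

lemma HH_lipschitz {μ k : ℝ} (h0 : 0 < μ) (h1 : μ < 1) (hk0 : 0 ≤ k) (hk3 : k ≤ 3) (t : ℝ) :
    LipschitzWith (Real.toNNReal (60 / μ ^ 2)) (HH μ k t) := by
  have hd : ∀ x, HasDerivAt (HH μ k t)
      (((3 * Real.tanh t * (Real.cos x ^ 2 - Real.sin x ^ 2)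
      - (-2 * (7 - μ) * (Real.sin x * Real.cos x)) / (2 * Real.cosh t)) * DD μ x
        - NN μ k t x * (-2 * (1 - μ) * (Real.sin x * Real.cos x))) / (DD μ x) ^ 2) x :=
    fun x => (hasDerivAt_NN μ k t x).div (hasDerivAt_DD μ x) (DD_pos h0 h1 x).ne'
  apply lipschitzWith_of_nnnorm_deriv_le (fun x => (hd x).differentiableAt)
  intro x
  rw [(hd x).deriv]
  rw [← NNReal.coe_le_coe, coe_nnnorm, Real.norm_eq_abs, Real.coe_toNNReal _ (by positivity)]
  have hD := DD_pos h0 h1 x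
  have hDl := DD_lower h1 x
  have hDu := DD_upper h1 x
  rw [abs_div, abs_of_pos (by positivity : 0 < (DD μ x) ^ 2)]
  apply div_le_div₀ (by norm_num) _ (by positivity) (pow_le_pow_left₀ h0.le hDl 2)
  have hsc := sc_bound x
  have a1 : |3 * Real.tanh t * (Real.cos x ^ 2 - Real.sin x ^ 2)| ≤ 3 := by
    rw [abs_mul, abs_mul, abs_of_pos (by norm_num : (0:ℝ) < 3)]
    have h3 := abs_tanh_le t
    have h4 : |Real.cos x ^ 2 - Real.sin x ^ 2| ≤ 1 := by
      rw [abs_le]
      constructor <;>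
        nlinarith [Real.sin_sq_add_cos_sq x, sq_nonneg (Real.sin x), sq_nonneg (Real.cos x)]
    nlinarith [abs_nonneg (Real.tanh t), abs_nonneg (Real.cos x ^ 2 - Real.sin x ^ 2)]
  have a2 : |(-2 * (7 - μ) * (Real.sin x * Real.cos x)) / (2 * Real.cosh t)| ≤ 7 := by
    apply cosh_half
    rw [abs_mul, abs_mul]
    have : |7 - μ| ≤ 7 := by rw [abs_of_pos (by linarith)]; linarith
    have h2 : |(-2 : ℝ)| = 2 := by norm_num
    rw [h2]
    nlinarith [abs_nonneg (Real.sin x * Real.cos x), abs_nonneg (7 - μ)]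
  have a3 : |3 * Real.tanh t * (Real.cos x ^ 2 - Real.sin x ^ 2)
      - (-2 * (7 - μ) * (Real.sin x * Real.cos x)) / (2 * Real.cosh t)| ≤ 10 :=
    (abs_sub _ _).trans (by linarith)
  have a4 : |(-2 * (1 - μ) * (Real.sin x * Real.cos x))| ≤ 1 := by
    rw [abs_mul, abs_mul]
    have : |1 - μ| ≤ 1 := by rw [abs_of_pos (by linarith)]; linarith
    have h2 : |(-2 : ℝ)| = 2 := by norm_num
    rw [h2]
    nlinarith [abs_nonneg (Real.sin x * Real.cos x), abs_nonneg (1 - μ)]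
  have a5 := NN_bound h0 h1 hk0 hk3 t x
  have a6 : |(3 * Real.tanh t * (Real.cos x ^ 2 - Real.sin x ^ 2)
      - (-2 * (7 - μ) * (Real.sin x * Real.cos x)) / (2 * Real.cosh t)) * DD μ x| ≤ 10 * 1 := by
    rw [abs_mul, abs_of_pos hD]
    exact mul_le_mul a3 hDu hD.le (by norm_num)
  have a7 : |NN μ k t x * (-2 * (1 - μ) * (Real.sin x * Real.cos x))| ≤ 15 * 1 := by
    rw [abs_mul]
    exact mul_le_mul a5 a4 (abs_nonneg _) (by norm_num)
  exact (abs_sub _ _).trans (by linarith)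

lemma HH_continuous (μ k x : ℝ) : Continuous fun t => HH μ k t x := by
  unfold HH NN
  have h1 : Continuous Real.tanh := by
    have : Real.tanh = fun t => Real.sinh t / Real.cosh t := by
      ext t
      exact Real.tanh_eq_sinh_div_cosh t
    rw [this]
    exact Real.continuous_sinh.div Real.continuous_cosh (fun t => (Real.cosh_pos t).ne')
  refine Continuous.div_const ?_ _
  refine ((continuous_const.mul h1).mul continuous_const).sub ?_
  exact continuous_const.div (continuous_const.mul Real.continuous_cosh)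
    (fun t => by have := Real.cosh_pos t; positivity)

/-- The barrier. -/
noncomputable def bar (l t : ℝ) : ℝ := Real.pi / 2 - Real.arctan (Real.sinh t / l)

/-- Its derivative. -/
noncomputable def bar' (l t : ℝ) : ℝ := -((Real.cosh t / l) / (1 + (Real.sinh t / l) ^ 2))

lemma hasDerivAt_bar (l t : ℝ) : HasDerivAt (bar l) (bar' l t) t := by
  have h1 : HasDerivAt (fun t => Real.sinh t / l) (Real.cosh t / l) t :=
    (Real.hasDerivAt_sinh t).div_const l
  have h2 := (h1.arctan).const_sub (Real.pi / 2)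
  refine h2.congr_deriv ?_
  unfold bar'
  ring

/-- The comparison polynomial. -/
noncomputable def PP (μ k l y : ℝ) : ℝ :=
  l * (1 + y) * (6 * l * y - μ * k * (1 + y) - (7 - μ) * y) + 2 * (1 + l ^ 2 * y) * (y + μ)

lemma HH_bar {μ k l : ℝ} (h0 : 0 < μ) (hl : 0 < l) (t : ℝ) :
    HH μ k t (bar l t) - bar' l t
      = PP μ k l ((Real.sinh t / l) ^ 2)
        / (2 * Real.cosh t * l * ((Real.sinh t / l) ^ 2 + μ) * (1 + (Real.sinh t / l) ^ 2)) := by
  set s : ℝ := Real.sinh t / l with hs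
  have hsl : Real.sinh t = l * s := by
    rw [hs]
    field_simp
  have hc := Real.cosh_pos t
  have hcs : Real.cosh t ^ 2 = 1 + l ^ 2 * s ^ 2 := by
    rw [Real.cosh_sq, hsl]
    ring
  have h1s : 0 < 1 + s ^ 2 := by positivity
  have hsin : Real.sin (bar l t) = Real.cos (Real.arctan s) := by
    unfold bar
    rw [Real.sin_pi_div_two_sub]
  have hcos : Real.cos (bar l t) = Real.sin (Real.arctan s) := by
    unfold bar
    rw [Real.cos_pi_div_two_sub]
  have e1 : Real.cos (Real.arctan s) ^ 2 = 1 / (1 + s ^ 2) := Real.cos_sq_arctan s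
  have e2 : Real.sin (Real.arctan s) ^ 2 = s ^ 2 / (1 + s ^ 2) := by
    have := Real.sin_sq_add_cos_sq (Real.arctan s)
    rw [e1] at this
    field_simp at this ⊢
    linarith
  have e3 : Real.cos (Real.arctan s) * Real.sin (Real.arctan s) = s / (1 + s ^ 2) := by
    rw [Real.cos_arctan, Real.sin_arctan]
    have hq := Real.sq_sqrt h1s.le
    have hq0 : 0 < Real.sqrt (1 + s ^ 2) := Real.sqrt_pos.mpr h1s
    field_simp
    rw [hq]
  have hμ : 0 < s ^ 2 + μ := by positivity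
  unfold HH NN DD bar' PP
  have hls : l * s / l = s := by field_simp
  rw [hsin, hcos, e1, e2, e3, Real.tanh_eq_sinh_div_cosh, hsl, hls]
  have : (s ^ 2 / (1 + s ^ 2) + μ * (1 / (1 + s ^ 2))) = (s ^ 2 + μ) / (1 + s ^ 2) := by
    field_simp
  rw [this]
  field_simp
  rw [hcs]
  ring

lemma PP_eq {μ k : ℝ} (hk : 0 < k) (y : ℝ) :
    PP μ k (2 / k) y = (2 / k ^ 2) * (((k - 3) * (k - 4) - μ * (2 * k ^ 2 - k - 4)) * y
      + (16 - 7 * k - μ * k * (k - 1)) * y ^ 2) := by
  unfold PP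
  field_simp
  ring

lemma den_pos {μ l t : ℝ} (h0 : 0 < μ) (hl : 0 < l) :
    0 < 2 * Real.cosh t * l * ((Real.sinh t / l) ^ 2 + μ) * (1 + (Real.sinh t / l) ^ 2) := by
  have := Real.cosh_pos t
  positivity

lemma bar_sub {μ : ℝ} (h0 : 0 < μ) (h1 : μ < 1) (t : ℝ) :
    bar' (2 / (2 + (1 - μ) / 6)) t
      ≤ HH μ (2 + (1 - μ) / 6) t (bar (2 / (2 + (1 - μ) / 6)) t) := by
  set k : ℝ := 2 + (1 - μ) / 6 with hk
  have hkpos : 0 < k := by rw [hk]; linarith
  have hl : 0 < 2 / k := by positivity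
  have h := HH_bar (μ := μ) (k := k) (l := 2 / k) h0 hl t
  have hp : 0 ≤ PP μ k (2 / k) ((Real.sinh t / (2 / k)) ^ 2) := by
    rw [PP_eq hkpos]
    have f2 : 0 ≤ (k - 3) * (k - 4) - μ * (2 * k ^ 2 - k - 4) := by
      rw [hk]
      nlinarith [mul_pos h0 (sub_pos.mpr h1), mul_pos (mul_pos h0 (sub_pos.mpr h1))
        (sub_pos.mpr h1)]
    have f1 : 0 ≤ 16 - 7 * k - μ * k * (k - 1) := by
      rw [hk]
      nlinarith [mul_pos h0 (sub_pos.mpr h1), mul_pos (mul_pos h0 (sub_pos.mpr h1))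
        (sub_pos.mpr h1)]
    positivity
  have := div_nonneg hp (den_pos (μ := μ) (l := 2 / k) (t := t) h0 hl).le
  linarith

lemma bar_super {μ : ℝ} (h0 : 0 < μ) (t : ℝ) :
    HH μ 3 t (bar (2 / 3) t) ≤ bar' (2 / 3) t := by
  have h := HH_bar (μ := μ) (k := 3) (l := 2 / 3) h0 (by norm_num) t
  have hp : PP μ 3 (2 / 3) ((Real.sinh t / (2 / 3)) ^ 2) ≤ 0 := by
    rw [PP_eq (by norm_num)]
    have hy : 0 ≤ (Real.sinh t / (2 / 3)) ^ 2 := sq_nonneg _
    nlinarith [mul_nonneg h0.le hy, mul_nonneg h0.le (sq_nonneg ((Real.sinh t / (2 / 3)) ^ 2)),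
      sq_nonneg ((Real.sinh t / (2 / 3)) ^ 2)]
  have := div_nonpos_of_nonpos_of_nonneg hp
    (den_pos (μ := μ) (l := 2 / 3) (t := t) h0 (by norm_num)).le
  linarith

lemma bar_large {μ k t : ℝ} (h0 : 0 < μ) (h1 : μ < 1) (hk0 : 0 ≤ k) (hk3 : k ≤ 3) (ht : 2 ≤ t) :
    bar' 2 t ≤ HH μ k t (bar 2 t) := by
  have h := HH_bar (μ := μ) (k := k) (l := 2) h0 (by norm_num) t
  have hs : 2 ≤ Real.sinh t := le_trans ht (Real.self_le_sinh_iff.mpr (by linarith))
  have hy : 1 ≤ (Real.sinh t / 2) ^ 2 := by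
    have : 1 ≤ Real.sinh t / 2 := by linarith
    nlinarith
  set y := (Real.sinh t / 2) ^ 2
  have hp : 0 ≤ PP μ k 2 y := by
    have e : PP μ k 2 y = -2 * μ * (k - 1) + y * (12 - 4 * μ * k + 10 * μ)
        + y ^ 2 * (18 - 2 * μ * k + 2 * μ) := by
      unfold PP
      ring
    rw [e]
    have a1 : 0 ≤ μ * (3 - k) := mul_nonneg h0.le (by linarith)
    have a2 : 0 ≤ μ * k := mul_nonneg h0.le hk0
    have b1 : 0 ≤ 12 - 4 * μ * k + 10 * μ := by nlinarith
    have b2 : 12 ≤ 18 - 2 * μ * k + 2 * μ := by nlinarith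
    have c1 : 0 ≤ y * (12 - 4 * μ * k + 10 * μ) := mul_nonneg (by linarith) b1
    have c2 : 12 ≤ y ^ 2 * (18 - 2 * μ * k + 2 * μ) := by nlinarith
    nlinarith
  have := div_nonneg hp (den_pos (μ := μ) (l := 2) (t := t) h0 (by norm_num)).le
  linarith

lemma bar_pos (l t : ℝ) : 0 < bar l t := by
  unfold bar
  have := Real.arctan_lt_pi_div_two (Real.sinh t / l)
  linarith

lemma bar_zero (l : ℝ) : bar l 0 = Real.pi / 2 := by
  simp [bar]

lemma bar_mono {l l' t : ℝ} (hl : 0 < l) (hll : l ≤ l') (ht : 0 ≤ t) : bar l t ≤ bar l' t := by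
  unfold bar
  have h : Real.sinh t / l' ≤ Real.sinh t / l :=
    div_le_div_of_nonneg_left (Real.sinh_nonneg_iff.mpr ht) hl hll
  have := Real.arctan_strictMono.monotone h
  linarith

/-- Existence of the profile of the homogeneous solution. -/
theorem exists_profile {μ : ℝ} (h0 : 0 < μ) (h1 : μ < 1) :
    ∃ (k : ℝ) (P : ℝ → ℝ), 2 < k ∧ k ≤ 3 ∧ P 0 = Real.pi / 2 ∧
      (∀ t, HasDerivAt P (HH μ k t (P t)) t) ∧ (∀ t, 0 ≤ t → 0 < P t) ∧
      (∀ t, 2 ≤ t → P t ≤ bar 2 t) := by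
  have sol : ∀ k : ℝ, 0 ≤ k → k ≤ 3 → ∃ α : ℝ → ℝ, α 0 = Real.pi / 2 ∧
      ∀ t, HasDerivAt α (HH μ k t (α t)) t := by
    intro k hk0 hk3
    refine exists_global (HH μ k) (HH_continuous μ k) (Real.toNNReal (60 / μ ^ 2))
      (Real.toNNReal (15 / μ)) (HH_lipschitz h0 h1 hk0 hk3) ?_ _
    intro t x
    rw [Real.coe_toNNReal _ (by positivity)]
    exact HH_bound h0 h1 hk0 hk3 t x
  choose! Ψ hΨ0 hΨ using sol
  set k1 : ℝ := 2 + (1 - μ) / 6 with hk1
  have hk1a : 2 < k1 := by rw [hk1]; linarith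
  have hk1b : k1 < 3 := by rw [hk1]; linarith
  -- continuous dependence
  have dep : ∀ T : ℝ, 0 ≤ T → ∃ C : ℝ, 0 < C ∧ ∀ k k', 0 ≤ k → k ≤ 3 → 0 ≤ k' → k' ≤ 3 →
      ∀ t ∈ Icc 0 T, |Ψ k t - Ψ k' t| ≤ C * |k - k'| := by
    intro T hT
    have hKpos : 0 < 60 / μ ^ 2 := by positivity
    refine ⟨Real.exp (60 / μ ^ 2 * T) / (60 / μ ^ 2), by positivity, ?_⟩
    intro k k' hk0 hk3 hk0' hk3' t ht
    have h := dist_le_of_approx_trajectories_ODE (v := HH μ k) (K := Real.toNNReal (60 / μ ^ 2))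
      (f := Ψ k) (g := Ψ k') (f' := fun t => HH μ k t (Ψ k t))
      (g' := fun t => HH μ k' t (Ψ k' t)) (a := 0) (b := T) (εf := 0) (εg := |k - k'|) (δ := 0)
      (HH_lipschitz h0 h1 hk0 hk3)
      (fun t _ => (hΨ k hk0 hk3 t).continuousAt.continuousWithinAt)
      (fun t _ => (hΨ k hk0 hk3 t).hasDerivWithinAt)
      (fun t _ => by simp)
      (fun t _ => (hΨ k' hk0' hk3' t).continuousAt.continuousWithinAt)
      (fun t _ => (hΨ k' hk0' hk3' t).hasDerivWithinAt)
      (fun t _ => by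
        rw [Real.dist_eq, abs_sub_comm]
        exact HH_diff h0 h1 t _)
      (by rw [hΨ0 k hk0 hk3, hΨ0 k' hk0' hk3']; simp) t ht
    rw [Real.dist_eq, gronwallBound_of_K_ne_0 (by
      rw [Real.coe_toNNReal _ hKpos.le]; exact hKpos.ne'), Real.coe_toNNReal _ hKpos.le] at h
    simp only [zero_mul, zero_add, sub_zero] at h
    have h2 : Real.exp (60 / μ ^ 2 * t) ≤ Real.exp (60 / μ ^ 2 * T) := by
      apply Real.exp_le_exp.mpr
      exact mul_le_mul_of_nonneg_left ht.2 hKpos.le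
    calc |Ψ k t - Ψ k' t| ≤ |k - k'| / (60 / μ ^ 2) * (Real.exp (60 / μ ^ 2 * t) - 1) := h
      _ ≤ |k - k'| / (60 / μ ^ 2) * Real.exp (60 / μ ^ 2 * T) := by
          apply mul_le_mul_of_nonneg_left (by linarith) (by positivity)
      _ = Real.exp (60 / μ ^ 2 * T) / (60 / μ ^ 2) * |k - k'| := by ring
  -- strict positivity
  have pos : ∀ k, 0 ≤ k → k ≤ 3 → (∀ t, 0 ≤ t → 0 ≤ Ψ k t) → ∀ t, 0 ≤ t → 0 < Ψ k t := by
    intro k hk0 hk3 hnn t ht
    rcases (hnn t ht).lt_or_eq with h | h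
    · exact h
    · exfalso
      have hd := hΨ k hk0 hk3 t
      rw [← h] at hd
      have hneg : HH μ k t 0 < 0 := by
        unfold HH NN DD
        simp only [Real.sin_zero, Real.cos_zero]
        have hc := Real.cosh_pos t
        have : 0 < (μ * k + (7 - μ) * 1 ^ 2) / (2 * Real.cosh t) := by
          apply div_pos _ (by positivity)
          nlinarith [mul_nonneg h0.le hk0]
        have h2 : 3 * Real.tanh t * (0 * 1) - (μ * k + (7 - μ) * 1 ^ 2) / (2 * Real.cosh t) < 0 := by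
          linarith
        apply div_neg_of_neg_of_pos h2
        norm_num
      have hs := (hasDerivAt_iff_tendsto_slope.mp hd).mono_left
        (nhdsWithin_mono t (fun x (hx : x ∈ Ioi t) => ne_of_gt hx))
      have : 0 ≤ HH μ k t 0 := by
        apply ge_of_tendsto hs
        filter_upwards [self_mem_nhdsWithin] with x hx
        rw [slope_def_field]
        apply div_nonneg _ (by linarith [mem_Ioi.mp hx])
        rw [← h]
        have := hnn x (by linarith [mem_Ioi.mp hx])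
        linarith
      linarith
  -- robustness above the barrier
  have robust : ∀ k, 0 ≤ k → k ≤ 3 → (∀ t, 0 ≤ t → 0 < Ψ k t) → ∀ t0, 2 ≤ t0 →
      bar 2 t0 < Ψ k t0 → ∃ δ, 0 < δ ∧ ∀ k', 0 ≤ k' → k' ≤ 3 → |k' - k| < δ →
        ∀ t, 0 ≤ t → 0 ≤ Ψ k' t := by
    intro k hk0 hk3 hp t0 ht0 hb
    obtain ⟨C, hC, hdep⟩ := dep t0 (by linarith)
    obtain ⟨tm, htm, hmin⟩ := (isCompact_Icc (a := (0:ℝ)) (b := t0)).exists_isMinOn
      ⟨0, by simp; linarith⟩
      (fun t _ => (hΨ k hk0 hk3 t).continuousAt.continuousWithinAt : ContinuousOn (Ψ k) (Icc 0 t0))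
    have hm : 0 < Ψ k tm := hp tm htm.1
    refine ⟨min (Ψ k tm) (Ψ k t0 - bar 2 t0) / C, div_pos (lt_min hm (by linarith)) hC, ?_⟩
    intro k' hk0' hk3' hkk
    rw [lt_div_iff₀ hC] at hkk
    have hkk1 : C * |k' - k| < Ψ k tm := by
      rw [mul_comm]
      exact lt_of_lt_of_le hkk (min_le_left _ _)
    have hkk2 : C * |k' - k| < Ψ k t0 - bar 2 t0 := by
      rw [mul_comm]
      exact lt_of_lt_of_le hkk (min_le_right _ _)
    have hclose : ∀ t ∈ Icc 0 t0, |Ψ k' t - Ψ k t| ≤ C * |k' - k| :=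
      fun t ht => hdep k' k hk0' hk3' hk0 hk3 t ht
    intro t ht
    rcases le_total t t0 with htt | htt
    · have h2 := hclose t ⟨ht, htt⟩
      have h3 : Ψ k tm ≤ Ψ k t := hmin ⟨ht, htt⟩
      rw [abs_le] at h2
      linarith [h2.1]
    · have h2 := hclose t0 ⟨by linarith, le_rfl⟩
      rw [abs_le] at h2
      have h3 : bar 2 t0 ≤ Ψ k' t0 := by linarith [h2.1]
      have h4 := comparison (HH μ k') (Real.toNNReal (60 / μ ^ 2))
        (HH_lipschitz h0 h1 hk0' hk3') (z := bar 2) (z' := bar' 2) (w := Ψ k')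
        (w' := fun t => HH μ k' t (Ψ k' t)) (a := t0)
        (fun t _ => hasDerivAt_bar 2 t) (fun t _ => hΨ k' hk0' hk3' t)
        (fun t ht => bar_large h0 h1 hk0' hk3' (by linarith)) (fun t _ => le_rfl) h3 t htt
      have := bar_pos 2 t
      linarith
  -- the good parameter
  have hgood : ∃ k, k1 ≤ k ∧ k ≤ 3 ∧ (∀ t, 0 ≤ t → 0 < Ψ k t) ∧ ∀ t, 2 ≤ t → Ψ k t ≤ bar 2 t := by
    set A : Set ℝ := {k | k1 ≤ k ∧ k ≤ 3 ∧ ∃ t, 0 ≤ t ∧ Ψ k t < 0} with hA
    have hk1A : k1 ∉ A := by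
      rintro ⟨_, _, t, ht, hneg⟩
      have h4 := comparison (HH μ k1) (Real.toNNReal (60 / μ ^ 2))
        (HH_lipschitz h0 h1 (by linarith) hk1b.le) (z := bar (2 / k1)) (z' := bar' (2 / k1))
        (w := Ψ k1) (w' := fun t => HH μ k1 t (Ψ k1 t)) (a := 0)
        (fun t _ => hasDerivAt_bar _ t) (fun t _ => hΨ k1 (by linarith) hk1b.le t)
        (fun t _ => bar_sub h0 h1 t) (fun t _ => le_rfl)
        (by rw [bar_zero, hΨ0 k1 (by linarith) hk1b.le]) t ht
      have := bar_pos (2 / k1) t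
      linarith
    rcases A.eq_empty_or_nonempty with hemp | hne
    · have hnn : ∀ t, 0 ≤ t → 0 ≤ Ψ 3 t := by
        intro t ht
        by_contra hcon
        push Not at hcon
        have : (3 : ℝ) ∈ A := ⟨hk1b.le, le_rfl, t, ht, hcon⟩
        rw [hemp] at this
        exact this
      refine ⟨3, hk1b.le, le_rfl, pos 3 (by norm_num) le_rfl hnn, ?_⟩
      intro t ht
      have h4 := comparison (HH μ 3) (Real.toNNReal (60 / μ ^ 2))
        (HH_lipschitz h0 h1 (by norm_num) le_rfl) (z := Ψ 3)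
        (z' := fun t => HH μ 3 t (Ψ 3 t)) (w := bar (2 / 3)) (w' := bar' (2 / 3)) (a := 0)
        (fun t _ => hΨ 3 (by norm_num) le_rfl t) (fun t _ => hasDerivAt_bar _ t)
        (fun t _ => le_rfl) (fun t _ => bar_super h0 t)
        (by rw [bar_zero, hΨ0 3 (by norm_num) le_rfl]) t (by linarith)
      exact h4.trans (bar_mono (by norm_num) (by norm_num) (by linarith))
    · have hbdd : BddBelow A := ⟨k1, fun k hk => hk.1⟩
      set ks : ℝ := sInf A with hks
      have hks1 : k1 ≤ ks := le_csInf hne (fun k hk => hk.1)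
      have hks3 : ks ≤ 3 := by
        obtain ⟨k, hk⟩ := hne
        exact (csInf_le hbdd hk).trans hk.2.1
      have hksA : ks ∉ A := by
        rintro hmem
        obtain ⟨_, _, t, ht, hneg⟩ := hmem
        have hlt : k1 < ks := by
          rcases hks1.lt_or_eq with h | h
          · exact h
          · exfalso
            apply hk1A
            rw [h]
            exact ⟨hks1, hks3, t, ht, hneg⟩
        obtain ⟨C, hC, hdep⟩ := dep t ht
        set ε : ℝ := min (ks - k1) (-(Ψ ks t) / (2 * C)) with hε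
        have hεpos : 0 < ε := lt_min (by linarith) (div_pos (by linarith) (by positivity))
        have hε1 : ε ≤ ks - k1 := min_le_left _ _
        have hε2 : C * ε ≤ -(Ψ ks t) / 2 := by
          have : ε ≤ -(Ψ ks t) / (2 * C) := min_le_right _ _
          rw [le_div_iff₀ (by positivity)] at this
          linarith
        have h2 := hdep (ks - ε) ks (by linarith) (by linarith) (by linarith) hks3 t ⟨ht, le_rfl⟩
        have h3 : |ks - ε - ks| = ε := by
          rw [show ks - ε - ks = -ε by ring, abs_neg, abs_of_pos hεpos]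
        rw [h3, abs_le] at h2
        have : ks - ε ∈ A := ⟨by linarith, by linarith, t, ht, by linarith [h2.2]⟩
        have := csInf_le hbdd this
        linarith
      have hnn : ∀ t, 0 ≤ t → 0 ≤ Ψ ks t := by
        intro t ht
        by_contra hcon
        push Not at hcon
        exact hksA ⟨hks1, hks3, t, ht, hcon⟩
      have hpos := pos ks (by linarith) hks3 hnn
      refine ⟨ks, hks1, hks3, hpos, ?_⟩
      intro t ht
      by_contra hcon
      push Not at hcon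
      obtain ⟨δ, hδ, hrob⟩ := robust ks (by linarith) hks3 hpos t ht hcon
      obtain ⟨k', hk', hlt⟩ := exists_lt_of_csInf_lt hne (show sInf A < ks + δ by linarith)
      have hge : ks ≤ k' := csInf_le hbdd hk'
      obtain ⟨a1, a2, s, hs, hneg⟩ := hk'
      have := hrob k' (by linarith) a2 (by rw [abs_of_nonneg (by linarith)]; linarith) s hs
      linarith
  obtain ⟨k, hka, hkb, hp, hb⟩ := hgood
  exact ⟨k, Ψ k, by linarith, hkb, hΨ0 k (by linarith) hkb, hΨ k (by linarith) hkb, hp, hb⟩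

end Pool.Agent.Helper749.ConeOde
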