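import Pool.Agent.Helper749.ConeGeo

set_option autoImplicit false

namespace Pool.Agent.Helper749.ConeSol

open Set Filter Topology MeasureTheory
open Pool.Agent.Helper749.ConeOde Pool.Agent.Helper749.ConeFun Pool.Agent.Helper749.PReg Pool.Agent.Helper749.ConeGeo
open scoped ContDiff

/-- All data of the profile. -/
structure Prof (μ : ℝ) where
  k : ℝ
  M : ℝ
  Vp : ℝ
  Vm : ℝ
  V : ℝ → ℝ
  β : ℝ → ℝ
  A : ℝ → ℝ
  B : ℝ → ℝ
  A' : ℝ → ℝ
  ρ : ℝ → ℝ
  hμ0 : 0 < μ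
  hμ1 : μ < 1
  hk2 : 2 < k
  hk3 : k ≤ 3
  hM : 0 < M
  hVp : 0 < Vp
  dV : ∀ t, HasDerivAt V (β t / (2 * Real.cosh t ^ 2)) t
  dA : ∀ t, HasDerivAt A (A' t) t
  cA' : Continuous A'
  dB : ∀ t, HasDerivAt B (4 * Real.tanh t * B t - (4 + ((k - 1) * μ - 1) / 2) * A t) t
  hρ : ∀ t, (k * V t) ^ 2 + β t ^ 2 / Real.cosh t ^ 2 = ρ t ^ 2
  ρpos : ∀ t, 0 < ρ t
  ρM : ∀ t, ρ t ≤ M
  hA : ∀ t, A t = ρ t ^ (μ - 1) * (k * V t)
  hB : ∀ t, B t = ρ t ^ (μ - 1) * β t
  VM : ∀ t, |V t| ≤ M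
  AM : ∀ t, |A t| ≤ M
  BM : ∀ t, |B t| ≤ M
  limp : ∀ t, |V t - Vp| ≤ M * (1 - Real.tanh t)
  limm : ∀ t, |V t - Vm| ≤ M * (1 + Real.tanh t)

theorem exists_prof {μ : ℝ} (h0 : 0 < μ) (h1 : μ < 1) : Nonempty (Prof μ) := by
  obtain ⟨k, C, Vp, Vm, P, ℓ, hk2, hk3, hC, hVp, hP, hℓ, hℓb, hsb, hp, hm, hV⟩ := profile h0 h1
  have hk0 : 0 < k := by linarith
  have hPc : Continuous P := continuous_iff_continuousAt.mpr fun t => (hP t).continuousAt
  have hℓc : Continuous ℓ := continuous_iff_continuousAt.mpr fun t => (hℓ t).continuousAt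
  have hexp : ∀ t, Real.exp (ℓ t) ≤ Real.exp C :=
    fun t => Real.exp_le_exp.mpr ((le_abs_self _).trans (hℓb t))
  have hexpμ : ∀ t, Real.exp (μ * ℓ t) ≤ Real.exp C := by
    intro t
    apply Real.exp_le_exp.mpr
    have := hℓb t
    rw [abs_le] at this
    nlinarith [this.1, this.2]
  have hCe : 1 ≤ Real.exp C := Real.one_le_exp hC.le
  have hMC : C ≤ Real.exp C * C + C + Real.exp C := by
    have : 0 ≤ Real.exp C * C := by positivity
    linarith [Real.exp_pos C]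
  have hM1 : Real.exp C ≤ Real.exp C * C + C + Real.exp C := by
    have : 0 ≤ Real.exp C * C := by positivity
    linarith
  have hM2 : Real.exp C * C ≤ Real.exp C * C + C + Real.exp C := by
    linarith [Real.exp_pos C]
  refine ⟨{
    k := k
    M := Real.exp C * C + C + Real.exp C
    Vp := Vp
    Vm := Vm
    V := fun t => Real.exp (ℓ t) * Real.cos (P t) / k
    β := fun t => Real.exp (ℓ t) * Real.sin (P t) * Real.cosh t
    A := fun t => Real.exp (μ * ℓ t) * Real.cos (P t)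
    B := fun t => Real.exp (μ * ℓ t) * Real.sin (P t) * Real.cosh t
    A' := fun t => Real.exp (μ * ℓ t) * (μ * LL μ k t (P t)) * Real.cos (P t)
      + Real.exp (μ * ℓ t) * (-Real.sin (P t) * HH μ k t (P t))
    ρ := fun t => Real.exp (ℓ t)
    hμ0 := h0
    hμ1 := h1
    hk2 := hk2
    hk3 := hk3
    hM := by positivity
    hVp := hVp
    dV := ?_
    dA := ?_
    cA' := ?_
    dB := ?_
    hρ := ?_
    ρpos := fun t => Real.exp_pos _
    ρM := fun t => (hexp t).trans hM1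
    hA := ?_
    hB := ?_
    VM := ?_
    AM := ?_
    BM := ?_
    limp := ?_
    limm := ?_ }⟩
  · intro t
    refine (hV t).congr_deriv ?_
    have := Real.cosh_pos t
    field_simp
  · intro t
    exact ((hℓ t).const_mul μ).exp.mul (hP t).cos
  · have c1 := HH_cont (k := k) h0 h1 hPc
    have c2 := LL_cont (k := k) h0 h1 hPc
    have c3 := Real.continuous_sin.comp hPc
    have c4 := Real.continuous_cos.comp hPc
    have c5 : Continuous fun t => Real.exp (μ * ℓ t) :=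
      Real.continuous_exp.comp (continuous_const.mul hℓc)
    exact ((c5.mul (continuous_const.mul c2)).mul c4).add (c5.mul (c3.neg.mul c1))
  · intro t
    refine ((((hℓ t).const_mul μ).exp.mul (hP t).sin).mul (Real.hasDerivAt_cosh t)).congr_deriv ?_
    have h := id_B (k := k) h0 h1 t (P t)
    have hc := Real.cosh_pos t
    have hT : Real.tanh t * Real.cosh t = Real.sinh t := by
      rw [Real.tanh_eq_sinh_div_cosh]
      field_simp
    have e : (Real.exp (μ * ℓ t) * (μ * LL μ k t (P t)) * Real.sin (P t)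
          + Real.exp (μ * ℓ t) * (Real.cos (P t) * HH μ k t (P t))) * Real.cosh t
          + Real.exp (μ * ℓ t) * Real.sin (P t) * Real.sinh t
        = Real.exp (μ * ℓ t) * ((μ * LL μ k t (P t) * Real.sin (P t)
          + Real.cos (P t) * HH μ k t (P t)) * Real.cosh t + Real.sin (P t) * Real.sinh t) := by
      ring
    simp only [Pi.mul_apply]
    rw [e, h, ← hT]
    field_simp
    ring
  · intro t
    have hc := Real.cosh_pos t
    have := Real.sin_sq_add_cos_sq (P t)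
    have e : (k * (Real.exp (ℓ t) * Real.cos (P t) / k)) ^ 2
        + (Real.exp (ℓ t) * Real.sin (P t) * Real.cosh t) ^ 2 / Real.cosh t ^ 2
        = Real.exp (ℓ t) ^ 2 * (Real.sin (P t) ^ 2 + Real.cos (P t) ^ 2) := by
      field_simp
      ring
    rw [e, this, mul_one]
  · intro t
    have e : Real.exp (ℓ t) ^ (μ - 1) * Real.exp (ℓ t) = Real.exp (μ * ℓ t) := by
      rw [← Real.exp_mul, ← Real.exp_add]
      congr 1
      ring
    rw [← e]
    field_simp
  · intro t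
    have e : Real.exp (ℓ t) ^ (μ - 1) * Real.exp (ℓ t) = Real.exp (μ * ℓ t) := by
      rw [← Real.exp_mul, ← Real.exp_add]
      congr 1
      ring
    rw [← e]
    ring
  · intro t
    rw [abs_div, abs_mul, abs_of_pos (Real.exp_pos _), abs_of_pos hk0, div_le_iff₀ hk0]
    have h3 := Real.abs_cos_le_one (P t)
    have h4 := hexp t
    have h5 := Real.exp_pos (ℓ t)
    have h6 : Real.exp (ℓ t) * |Real.cos (P t)| ≤ Real.exp C * 1 :=
      mul_le_mul h4 h3 (abs_nonneg _) (Real.exp_pos _).le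
    nlinarith
  · intro t
    rw [abs_mul, abs_of_pos (Real.exp_pos _)]
    have h6 : Real.exp (μ * ℓ t) * |Real.cos (P t)| ≤ Real.exp C * 1 :=
      mul_le_mul (hexpμ t) (Real.abs_cos_le_one (P t)) (abs_nonneg _) (Real.exp_pos _).le
    linarith
  · intro t
    rw [abs_mul, abs_mul, abs_of_pos (Real.exp_pos _), abs_of_pos (Real.cosh_pos t), mul_assoc]
    have h6 : Real.exp (μ * ℓ t) * (|Real.sin (P t)| * Real.cosh t) ≤ Real.exp C * C :=
      mul_le_mul (hexpμ t) (hsb t) (mul_nonneg (abs_nonneg _) (Real.cosh_pos t).le)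
        (Real.exp_pos _).le
    linarith
  · intro t
    refine (hp t).trans (mul_le_mul_of_nonneg_right hMC ?_)
    linarith [Real.tanh_lt_one t]
  · intro t
    refine (hm t).trans (mul_le_mul_of_nonneg_right hMC ?_)
    linarith [Real.neg_one_lt_tanh t]

variable {μ : ℝ} (Pr : Prof μ)

/-- The solution. -/
noncomputable def uu (z : E) : ℝ :=
  if YY z = 0 then RR z ^ (Pr.k / 2) * Pr.Vp
  else if XX z = 0 then RR z ^ (Pr.k / 2) * Pr.Vm
  else bb (Pr.k / 2) Pr.V z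

lemma uu_UU {z : E} (hz : z ∈ UU) : uu Pr z = bb (Pr.k / 2) Pr.V z := by
  unfold uu
  rw [if_neg hz.2.ne', if_neg hz.1.ne']

lemma hasFDerivAt_uu {z : E} (hz : z ∈ UU) :
    HasFDerivAt (uu Pr) (dbb (Pr.k / 2) Pr.V (Pr.β (tt z) / (2 * Real.cosh (tt z) ^ 2)) z) z := by
  refine (hasFDerivAt_bb hz (Pr.dV (tt z))).congr_of_eventuallyEq ?_
  filter_upwards [isOpen_UU.mem_nhds hz] with w hw
  exact uu_UU Pr hw

lemma pd_uu {z : E} (hz : z ∈ UU) (j : Fin 8) :
    pd j (uu Pr) z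
      = z j * (RR z ^ (Pr.k / 2 - 1) * (Pr.k * Pr.V (tt z) + kap z j * Pr.β (tt z))) := by
  unfold pd
  rw [(hasFDerivAt_uu Pr hz).fderiv]
  exact grad_u hz j

lemma uu_near_p {z : E} (hz : 0 < XX z) :
    |uu Pr z - RR z ^ (Pr.k / 2) * Pr.Vp| ≤ 2 * Pr.M * RR z ^ (Pr.k / 2 - 1) * YY z := by
  rcases (YY_nonneg z).eq_or_lt with h | h
  · unfold uu
    rw [if_pos h.symm, ← h]
    simp
  · have hU : z ∈ UU := ⟨hz, h⟩
    have hR := RR_pos hU
    have e2 : RR z ^ (Pr.k / 2) = RR z ^ (Pr.k / 2 - 1) * RR z := by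
      rw [← Real.rpow_add_one hR.ne']
      congr 1
      ring
    have hRp : 0 < RR z ^ (Pr.k / 2 - 1) := Real.rpow_pos_of_pos hR _
    rw [uu_UU Pr hU]
    unfold bb
    rw [← mul_sub, abs_mul, e2, abs_of_pos (by positivity)]
    have h1 := Pr.limp (tt z)
    have h2 : RR z * (1 - Real.tanh (tt z)) = 2 * YY z := by
      rw [tanh_tt hU]
      unfold RR at hR ⊢
      field_simp
      ring
    calc RR z ^ (Pr.k / 2 - 1) * RR z * |Pr.V (tt z) - Pr.Vp|
        ≤ RR z ^ (Pr.k / 2 - 1) * RR z * (Pr.M * (1 - Real.tanh (tt z))) := by gcongr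
      _ = RR z ^ (Pr.k / 2 - 1) * Pr.M * (RR z * (1 - Real.tanh (tt z))) := by ring
      _ = 2 * Pr.M * RR z ^ (Pr.k / 2 - 1) * YY z := by rw [h2]; ring

lemma uu_near_m {z : E} (hz : 0 < YY z) :
    |uu Pr z - RR z ^ (Pr.k / 2) * Pr.Vm| ≤ 2 * Pr.M * RR z ^ (Pr.k / 2 - 1) * XX z := by
  rcases (XX_nonneg z).eq_or_lt with h | h
  · unfold uu
    rw [if_neg hz.ne', if_pos h.symm, ← h]
    simp
  · have hU : z ∈ UU := ⟨h, hz⟩
    have hR := RR_pos hU
    have e2 : RR z ^ (Pr.k / 2) = RR z ^ (Pr.k / 2 - 1) * RR z := by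
      rw [← Real.rpow_add_one hR.ne']
      congr 1
      ring
    have hRp : 0 < RR z ^ (Pr.k / 2 - 1) := Real.rpow_pos_of_pos hR _
    rw [uu_UU Pr hU]
    unfold bb
    rw [← mul_sub, abs_mul, e2, abs_of_pos (by positivity)]
    have h1 := Pr.limm (tt z)
    have h2 : RR z * (1 + Real.tanh (tt z)) = 2 * XX z := by
      rw [tanh_tt hU]
      unfold RR at hR ⊢
      field_simp
      ring
    calc RR z ^ (Pr.k / 2 - 1) * RR z * |Pr.V (tt z) - Pr.Vm|
        ≤ RR z ^ (Pr.k / 2 - 1) * RR z * (Pr.M * (1 + Real.tanh (tt z))) := by gcongr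
      _ = RR z ^ (Pr.k / 2 - 1) * Pr.M * (RR z * (1 + Real.tanh (tt z))) := by ring
      _ = 2 * Pr.M * RR z ^ (Pr.k / 2 - 1) * XX z := by rw [h2]; ring

lemma uu_bound (z : E) : |uu Pr z| ≤ (Pr.M + |Pr.Vp| + |Pr.Vm|) * RR z ^ (Pr.k / 2) := by
  have hM := Pr.hM
  have hR : 0 ≤ RR z ^ (Pr.k / 2) := Real.rpow_nonneg (RR_nonneg z) _
  have h1 := abs_nonneg Pr.Vp
  have h2 := abs_nonneg Pr.Vm
  unfold uu bb
  split_ifs
  · rw [abs_mul, abs_of_nonneg hR]
    nlinarith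
  · rw [abs_mul, abs_of_nonneg hR]
    nlinarith
  · rw [abs_mul, abs_of_nonneg hR]
    have := Pr.VM (tt z)
    nlinarith

lemma RR_eq_norm (z : E) : RR z = ‖z‖ ^ 2 := (norm_sq z).symm

lemma hasFDerivAt_RRk (z : E) : DifferentiableAt ℝ (fun z => RR z ^ (Pr.k / 2)) z := by
  have := Pr.hk2
  exact ((hasFDerivAt_RR z).rpow_const (Or.inr (by linarith))).differentiableAt

lemma YY_le {z₀ : E} (h : YY z₀ = 0) (z : E) : YY z ≤ ‖z - z₀‖ ^ 2 := by
  have h1 : YY (z - z₀) = YY z := by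
    rw [YY_eq] at h
    have h4 : z₀ 4 = 0 := by nlinarith [sq_nonneg (z₀ 4), sq_nonneg (z₀ 5), sq_nonneg (z₀ 6), sq_nonneg (z₀ 7)]
    have h5 : z₀ 5 = 0 := by nlinarith [sq_nonneg (z₀ 4), sq_nonneg (z₀ 5), sq_nonneg (z₀ 6), sq_nonneg (z₀ 7)]
    have h6 : z₀ 6 = 0 := by nlinarith [sq_nonneg (z₀ 4), sq_nonneg (z₀ 5), sq_nonneg (z₀ 6), sq_nonneg (z₀ 7)]
    have h7 : z₀ 7 = 0 := by nlinarith [sq_nonneg (z₀ 4), sq_nonneg (z₀ 5), sq_nonneg (z₀ 6), sq_nonneg (z₀ 7)]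
    rw [YY_eq, YY_eq]
    simp [h4, h5, h6, h7]
  rw [norm_sq, h1]
  linarith [XX_nonneg (z - z₀)]

lemma XX_le {z₀ : E} (h : XX z₀ = 0) (z : E) : XX z ≤ ‖z - z₀‖ ^ 2 := by
  have h1 : XX (z - z₀) = XX z := by
    rw [XX_eq] at h
    have h4 : z₀ 0 = 0 := by nlinarith [sq_nonneg (z₀ 0), sq_nonneg (z₀ 1), sq_nonneg (z₀ 2), sq_nonneg (z₀ 3)]
    have h5 : z₀ 1 = 0 := by nlinarith [sq_nonneg (z₀ 0), sq_nonneg (z₀ 1), sq_nonneg (z₀ 2), sq_nonneg (z₀ 3)]
    have h6 : z₀ 2 = 0 := by nlinarith [sq_nonneg (z₀ 0), sq_nonneg (z₀ 1), sq_nonneg (z₀ 2), sq_nonneg (z₀ 3)]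
    have h7 : z₀ 3 = 0 := by nlinarith [sq_nonneg (z₀ 0), sq_nonneg (z₀ 1), sq_nonneg (z₀ 2), sq_nonneg (z₀ 3)]
    rw [XX_eq, XX_eq]
    simp [h4, h5, h6, h7]
  rw [norm_sq, h1]
  linarith [YY_nonneg (z - z₀)]

lemma differentiable_uu : Differentiable ℝ (uu Pr) := by
  have hk2 := Pr.hk2
  have hM := Pr.hM
  intro z₀
  rcases (XX_nonneg z₀).eq_or_lt with hX | hX
  · rcases (YY_nonneg z₀).eq_or_lt with hY | hY
    · -- the origin
      have h0 : z₀ = 0 := by
        have := norm_sq z₀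
        rw [← hX, ← hY] at this
        simpa using this
      have : HasFDerivAt (uu Pr) (0 : E →L[ℝ] ℝ) z₀ := by
        refine Asymptotics.IsBigO.hasFDerivAt (n := 2) ?_ (by norm_num)
        refine Asymptotics.IsBigO.of_bound (Pr.M + |Pr.Vp| + |Pr.Vm|) ?_
        have hnear : ∀ᶠ z in 𝓝 z₀, RR z < 1 := by
          apply continuous_RR.continuousAt.eventually_lt_const
          rw [h0, RR_eq_norm]
          simp
        filter_upwards [hnear] with z hz
        rw [h0, sub_zero, Real.norm_eq_abs, norm_pow, norm_norm, ← RR_eq_norm]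
        refine (uu_bound Pr z).trans ?_
        have : RR z ^ (Pr.k / 2) ≤ RR z := by
          conv_rhs => rw [← Real.rpow_one (RR z)]
          exact Real.rpow_le_rpow_of_exponent_ge' (RR_nonneg z) hz.le (by norm_num) (by linarith)
        have h3 : 0 ≤ Pr.M + |Pr.Vp| + |Pr.Vm| := by positivity
        exact mul_le_mul_of_nonneg_left this h3
      exact this.differentiableAt
    · have hD : HasFDerivAt (fun z => uu Pr z - RR z ^ (Pr.k / 2) * Pr.Vm) (0 : E →L[ℝ] ℝ) z₀ := by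
        refine Asymptotics.IsBigO.hasFDerivAt (n := 2) ?_ (by norm_num)
        refine Asymptotics.IsBigO.of_bound (2 * Pr.M * (RR z₀ ^ (Pr.k / 2 - 1) + 1)) ?_
        have hnear : ∀ᶠ z in 𝓝 z₀, RR z ^ (Pr.k / 2 - 1) < RR z₀ ^ (Pr.k / 2 - 1) + 1 := by
          have : ContinuousAt (fun z => RR z ^ (Pr.k / 2 - 1)) z₀ :=
            continuous_RR.continuousAt.rpow_const (Or.inr (by linarith))
          exact this.eventually_lt_const (by linarith)
        have hpos : ∀ᶠ z in 𝓝 z₀, 0 < YY z := continuous_YY.continuousAt.eventually_const_lt hY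
        filter_upwards [hnear, hpos] with z hz hz2
        rw [Real.norm_eq_abs, norm_pow, norm_norm]
        refine (uu_near_m Pr hz2).trans ?_
        have h5 := XX_le hX.symm z
        have h6 := XX_nonneg z
        have h7 : 0 ≤ RR z ^ (Pr.k / 2 - 1) := Real.rpow_nonneg (RR_nonneg z) _
        have h8 : 0 ≤ 2 * Pr.M * (RR z₀ ^ (Pr.k / 2 - 1) + 1) :=
          mul_nonneg (by linarith) (by linarith)
        gcongr
      have := hD.differentiableAt.add ((hasFDerivAt_RRk Pr z₀).mul_const Pr.Vm)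
      refine this.congr_of_eventuallyEq ?_
      filter_upwards with w
      simp
  · rcases (YY_nonneg z₀).eq_or_lt with hY | hY
    · have hD : HasFDerivAt (fun z => uu Pr z - RR z ^ (Pr.k / 2) * Pr.Vp) (0 : E →L[ℝ] ℝ) z₀ := by
        refine Asymptotics.IsBigO.hasFDerivAt (n := 2) ?_ (by norm_num)
        refine Asymptotics.IsBigO.of_bound (2 * Pr.M * (RR z₀ ^ (Pr.k / 2 - 1) + 1)) ?_
        have hnear : ∀ᶠ z in 𝓝 z₀, RR z ^ (Pr.k / 2 - 1) < RR z₀ ^ (Pr.k / 2 - 1) + 1 := by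
          have : ContinuousAt (fun z => RR z ^ (Pr.k / 2 - 1)) z₀ :=
            continuous_RR.continuousAt.rpow_const (Or.inr (by linarith))
          exact this.eventually_lt_const (by linarith)
        have hpos : ∀ᶠ z in 𝓝 z₀, 0 < XX z := continuous_XX.continuousAt.eventually_const_lt hX
        filter_upwards [hnear, hpos] with z hz hz2
        rw [Real.norm_eq_abs, norm_pow, norm_norm]
        refine (uu_near_p Pr hz2).trans ?_
        have h5 := YY_le hY.symm z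
        have h6 := YY_nonneg z
        have h7 : 0 ≤ RR z ^ (Pr.k / 2 - 1) := Real.rpow_nonneg (RR_nonneg z) _
        have h8 : 0 ≤ 2 * Pr.M * (RR z₀ ^ (Pr.k / 2 - 1) + 1) :=
          mul_nonneg (by linarith) (by linarith)
        gcongr
      have := hD.differentiableAt.add ((hasFDerivAt_RRk Pr z₀).mul_const Pr.Vp)
      refine this.congr_of_eventuallyEq ?_
      filter_upwards with w
      simp
    · exact (hasFDerivAt_uu Pr ⟨hX, hY⟩).differentiableAt

/-- The gradient. -/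
noncomputable def GG (z : E) : E := WithLp.toLp 2 fun i => pd i (uu Pr) z

lemma GG_apply (z : E) (i : Fin 8) : GG Pr z i = pd i (uu Pr) z := rfl

lemma norm_GG {z : E} (hz : z ∈ UU) : ‖GG Pr z‖ = RR z ^ ((Pr.k - 1) / 2) * Pr.ρ (tt z) := by
  have hR := RR_pos hz
  have hρ := Pr.ρpos (tt z)
  have h1 : ‖GG Pr z‖ ^ 2 = (RR z ^ ((Pr.k - 1) / 2) * Pr.ρ (tt z)) ^ 2 := by
    rw [EuclideanSpace.norm_sq_eq]
    simp only [GG_apply, pd_uu Pr hz, Real.norm_eq_abs, sq_abs]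
    rw [norm_grad hz, Pr.hρ, mul_pow]
    congr 1
    rw [← Real.rpow_mul_natCast hR.le, ← Real.rpow_mul_natCast hR.le, ← Real.rpow_add_one hR.ne']
    congr 1
    push_cast
    ring
  have h2 : 0 ≤ RR z ^ ((Pr.k - 1) / 2) * Pr.ρ (tt z) := by positivity
  exact (pow_left_inj₀ (norm_nonneg _) h2 (by norm_num)).mp h1

/-- The coefficient function of the flux. -/
noncomputable def cc (j : Fin 8) (t : ℝ) : ℝ := Pr.A t + ((cX j - cY j) - Real.tanh t) * Pr.B t

/-- Its derivative. -/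
noncomputable def cc' (j : Fin 8) (t : ℝ) : ℝ :=
  Pr.A' t + ((cX j - cY j) - Real.tanh t)
      * (4 * Real.tanh t * Pr.B t - (4 + ((Pr.k - 1) * μ - 1) / 2) * Pr.A t)
    - 1 / Real.cosh t ^ 2 * Pr.B t

lemma hasDerivAt_cc (j : Fin 8) (t : ℝ) : HasDerivAt (cc Pr j) (cc' Pr j t) t := by
  have h := (Pr.dA t).add (((hasDerivAt_tanh t).const_sub (cX j - cY j)).mul (Pr.dB t))
  refine h.congr_deriv ?_
  unfold cc'
  ring

/-- The exponent of the flux. -/
noncomputable def ee : ℝ := ((Pr.k - 1) * μ - 1) / 2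

/-- The flux. -/
noncomputable def FF (j : Fin 8) (z : E) : ℝ := z j * bb (ee Pr) (cc Pr j) z

lemma flux_eq {z : E} (hz : z ∈ UU) (j : Fin 8) :
    ‖GG Pr z‖ ^ (μ - 1) * GG Pr z j = FF Pr j z := by
  have hR := RR_pos hz
  have hρ := Pr.ρpos (tt z)
  rw [norm_GG Pr hz, GG_apply, pd_uu Pr hz, Real.mul_rpow (by positivity) hρ.le]
  unfold FF bb cc
  rw [Pr.hA, Pr.hB, ← kap_eq hz]
  have e : RR z ^ (ee Pr) = (RR z ^ ((Pr.k - 1) / 2)) ^ (μ - 1) * RR z ^ (Pr.k / 2 - 1) := by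
    rw [← Real.rpow_mul hR.le, ← Real.rpow_add hR]
    congr 1
    unfold ee
    ring
  rw [e]
  ring

lemma hasFDerivAt_FF {z : E} (hz : z ∈ UU) (j : Fin 8) :
    HasFDerivAt (FF Pr j) (z j • dbb (ee Pr) (cc Pr j) (cc' Pr j (tt z)) z
      + bb (ee Pr) (cc Pr j) z • (EuclideanSpace.proj j : E →L[ℝ] ℝ)) z :=
  (hasFDerivAt_coord j z).mul (hasFDerivAt_bb hz (hasDerivAt_cc Pr j (tt z)))

lemma div_zero {z : E} (hz : z ∈ UU) : ∑ j, pd j (FF Pr j) z = 0 := by
  have e : ∀ j, pd j (FF Pr j) z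
      = RR z ^ (ee Pr) * (Pr.A (tt z) + kap z j * Pr.B (tt z))
        + z j * (z j * (RR z ^ (ee Pr) * (Pr.A' (tt z) + kap z j * (4 * Real.tanh (tt z) * Pr.B (tt z)
            - (4 + ((Pr.k - 1) * μ - 1) / 2) * Pr.A (tt z)) - 1 / Real.cosh (tt z) ^ 2 * Pr.B (tt z))
            * (cX j / XX z - cY j / YY z)
          + 2 * (ee Pr) * RR z ^ (ee Pr - 1) * (Pr.A (tt z) + kap z j * Pr.B (tt z)))) := by
    intro j
    unfold pd
    rw [(hasFDerivAt_FF Pr hz j).fderiv]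
    simp only [_root_.add_apply, _root_.smul_apply, smul_eq_mul, dbb_single]
    unfold cc' bb cc
    rw [← kap_eq hz]
    simp
    ring
  simp only [e]
  rw [div_F hz]
  unfold ee
  ring

lemma FF_bound {z : E} (hz : z ∈ UU) (j : Fin 8) :
    |FF Pr j z| ≤ 3 * Pr.M * RR z ^ ((Pr.k - 1) * μ / 2) := by
  have hR := RR_pos hz
  have hM := Pr.hM
  unfold FF bb
  rw [abs_mul, abs_mul, abs_of_pos (Real.rpow_pos_of_pos hR _)]
  have h1 : |z j| ≤ RR z ^ (1 / 2 : ℝ) := by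
    rw [← Real.sqrt_eq_rpow]
    apply Real.abs_le_sqrt
    have : ‖z j‖ ≤ ‖z‖ := PiLp.norm_apply_le z j
    rw [RR_eq_norm, ← sq_abs]
    exact pow_le_pow_left₀ (abs_nonneg _) this 2
  have h2 : |cc Pr j (tt z)| ≤ 3 * Pr.M := by
    unfold cc
    refine (abs_add_le _ _).trans ?_
    rw [abs_mul]
    have h3 := Pr.AM (tt z)
    have h4 := Pr.BM (tt z)
    have h5 : |(cX j - cY j) - Real.tanh (tt z)| ≤ 2 := by
      have h6 := Real.tanh_lt_one (tt z)
      have h7 := Real.neg_one_lt_tanh (tt z)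
      rw [abs_le]
      unfold cX cY
      split_ifs <;> constructor <;> linarith
    have h8 : |(cX j - cY j) - Real.tanh (tt z)| * |Pr.B (tt z)| ≤ 2 * Pr.M :=
      mul_le_mul h5 h4 (abs_nonneg _) (by norm_num)
    linarith
  have e : RR z ^ ((Pr.k - 1) * μ / 2) = RR z ^ (1 / 2 : ℝ) * RR z ^ (ee Pr) := by
    rw [← Real.rpow_add hR]
    congr 1
    unfold ee
    ring
  rw [e]
  calc |z j| * (RR z ^ ee Pr * |cc Pr j (tt z)|)
      ≤ RR z ^ (1 / 2 : ℝ) * (RR z ^ ee Pr * (3 * Pr.M)) := by gcongr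
    _ = 3 * Pr.M * (RR z ^ (1 / 2 : ℝ) * RR z ^ ee Pr) := by ring

end Pool.Agent.Helper749.ConeSol
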